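import Mathlib.Analysis.CStarAlgebra.Classes

/-!
Polygons in the plane `ℝ² = ℂ`, the maps `q_t`, `r_t`, the multi-area and the form `ω`.
-/

set_option autoImplicit false

namespace Pool.Agent.MP_62f0b1_an

/-- `P` is an `n`-gon: cyclically consecutive vertices are distinct. -/
def IsPolygon {n : ℕ} [NeZero n] (P : Fin n → ℂ) : Prop := ∀ i, P i ≠ P (i - 1)

/-- `q_t(P)_i = P_i + t (P_i - P_{i-1}) / |P_i - P_{i-1}|`. -/
noncomputable def qMap {n : ℕ} [NeZero n] (t : ℝ) (P : Fin n → ℂ) : Fin n → ℂ :=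
  fun i => P i + (t / ‖P i - P (i - 1)‖) • (P i - P (i - 1))

/-- `r_t(P)_i = P_i + t (P_i - P_{i+1}) / |P_i - P_{i+1}|`. -/
noncomputable def rMap {n : ℕ} [NeZero n] (t : ℝ) (P : Fin n → ℂ) : Fin n → ℂ :=
  fun i => P i + (t / ‖P i - P (i + 1)‖) • (P i - P (i + 1))

/-- The algebraic multi-area `∑_{i<j} (-1)^{i+j} det(P_i, P_j)`. -/
def multiArea {n : ℕ} (P : Fin n → ℂ) : ℝ :=
  ∑ i : Fin n, ∑ j : Fin n, if i < j then
    (-1) ^ (i.val + j.val) * ((P i).re * (P j).im - (P i).im * (P j).re) else 0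

/-- The form `ω = ∑_{i<j} (-1)^{i+j-1} (dx_i ∧ dx_j + dy_i ∧ dy_j)` on tangent vectors `v, w`. -/
def omegaForm {n : ℕ} (v w : Fin n → ℂ) : ℝ :=
  ∑ i : Fin n, ∑ j : Fin n, if i < j then
    (-1) ^ (i.val + j.val + 1) * (((v i).re * (w j).re - (v j).re * (w i).re) +
      ((v i).im * (w j).im - (v j).im * (w i).im)) else 0

end Pool.Agent.MP_62f0b1_an
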