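import Mathlib.Algebra.Polynomial.Roots
import Mathlib.Topology.Sheaves.Presheaf
import Mathlib.Topology.Algebra.Module.ModuleTopology
import Mathlib.Analysis.InnerProductSpace.Basic
import Mathlib.Analysis.Analytic.Uniqueness
import Mathlib.Analysis.Calculus.Deriv.Slope

/-!
Leading terms of real-analytic functions and their transport along curves.
-/

set_option autoImplicit false
set_option linter.unusedSectionVars false

open Filter Topology Asymptotics

namespace Pool.Agent.MP_62f0b1_an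

variable {E : Type*} [NormedAddCommGroup E] [NormedSpace ℝ E]

/-- `G` vanishes to order `k` at `x`. -/
def Ord (G : E → ℝ) (x : E) (k : ℕ) : Prop :=
  (fun v => G (x + v)) =O[𝓝 0] fun v : E => ‖v‖ ^ k

/-- `p` is the homogeneous term of degree `k` of `G` at `x`, and there is no lower term. -/
def Lead (G : E → ℝ) (x : E) (k : ℕ) (p : E → ℝ) : Prop :=
  ∃ P : ContinuousMultilinearMap ℝ (fun _ : Fin k => E) ℝ, (∀ v, p v = P (fun _ => v)) ∧
    (fun v => G (x + v) - p v) =O[𝓝 0] fun v : E => ‖v‖ ^ (k + 1)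

theorem isBigO_pow_le {j k : ℕ} (h : j ≤ k) :
    (fun v : E => ‖v‖ ^ k) =O[𝓝 0] fun v : E => ‖v‖ ^ j := by
  refine IsBigO.of_bound 1 ?_
  filter_upwards [Metric.ball_mem_nhds (0 : E) one_pos] with v hv
  rw [mem_ball_zero_iff] at hv
  simp only [norm_pow, norm_norm, one_mul]
  exact pow_le_pow_of_le_one (norm_nonneg _) hv.le h

theorem diag_zero {G : E → ℝ} {x : E} {P : FormalMultilinearSeries ℝ E ℝ}
    (hP : HasFPowerSeriesAt G P x) {k : ℕ} (hk : Ord G x k) :
    ∀ n < k, ∀ v, P n (fun _ => v) = 0 := by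
  intro n
  induction n using Nat.strong_induction_on with
  | _ n ih =>
    intro hn v
    have h1 := hP.isBigO_sub_partialSum_pow (n + 1)
    have h2 : ∀ v, P.partialSum (n + 1) v = P n (fun _ => v) := by
      intro v
      rw [FormalMultilinearSeries.partialSum, Finset.sum_range_succ, Finset.sum_eq_zero, zero_add]
      intro j hj
      exact ih j (Finset.mem_range.1 hj) ((Finset.mem_range.1 hj).trans hn) v
    have h3 := (IsBigO.trans hk (isBigO_pow_le (E := E) (Nat.succ_le_of_lt hn))).sub h1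
    simp only [h2, sub_sub_cancel] at h3
    exact h3.continuousMultilinearMap_apply_eq_zero v

theorem exists_lead {G : E → ℝ} {x : E} (hG : AnalyticAt ℝ G x) {k : ℕ} (hk : Ord G x k) :
    ∃ p, Lead G x k p := by
  obtain ⟨P, hP⟩ := hG
  refine ⟨fun v => P k (fun _ => v), P k, fun _ => rfl, ?_⟩
  have h1 := hP.isBigO_sub_partialSum_pow (k + 1)
  have h2 : ∀ v, P.partialSum (k + 1) v = P k (fun _ => v) := by
    intro v
    rw [FormalMultilinearSeries.partialSum, Finset.sum_range_succ, Finset.sum_eq_zero, zero_add]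
    intro j hj
    exact diag_zero hP hk j (Finset.mem_range.1 hj) v
  simpa only [h2] using h1

theorem eventually_zero_of_ord {G : E → ℝ} {x : E} (hG : AnalyticAt ℝ G x)
    (hk : ∀ k, Ord G x k) : ∀ᶠ v in 𝓝 (0 : E), G (x + v) = 0 := by
  obtain ⟨P, hP⟩ := hG
  filter_upwards [hP.eventually_hasSum] with v hv
  have : (fun n => P n fun _ => v) = fun _ => 0 := by
    ext n; exact diag_zero hP (hk (n + 1)) n (Nat.lt_succ_self n) v
  rw [this] at hv
  exact hv.unique hasSum_zero

theorem ord_zero {G : E → ℝ} {x : E} (hG : AnalyticAt ℝ G x) : Ord G x 0 := by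
  have h : ContinuousAt (fun v => G (x + v)) 0 :=
    ContinuousAt.comp (g := G) (by simpa using hG.continuousAt) (by fun_prop)
  simpa [Ord] using h.tendsto.isBigO_one ℝ

namespace Lead

variable {G : E → ℝ} {x : E} {k : ℕ} {p : E → ℝ}

theorem hom (h : Lead G x k p) (τ : ℝ) (v : E) : p (τ • v) = τ ^ k * p v := by
  obtain ⟨P, hP, -⟩ := h
  rw [hP, hP]
  have := P.map_smul_univ (fun _ => τ) (fun _ => v)
  simpa using this

theorem cont (h : Lead G x k p) : Continuous p := by
  obtain ⟨P, hP, -⟩ := h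
  have : p = fun v => P (fun _ => v) := funext hP
  rw [this]
  exact P.cont.comp (by fun_prop)

theorem ord (h : Lead G x k p) : Ord G x k := by
  obtain ⟨P, hP, h2⟩ := h
  have h1 : p =O[𝓝 0] fun v : E => ‖v‖ ^ k := by
    refine IsBigO.of_bound ‖P‖ (Eventually.of_forall fun v => ?_)
    have := P.le_opNorm (fun _ => v)
    simpa [hP] using this
  have := (h2.trans (isBigO_pow_le (Nat.le_succ k))).add h1
  simpa [Ord] using this

theorem ord_succ (h : Lead G x k p) (h0 : ∀ v, p v = 0) : Ord G x (k + 1) := by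
  obtain ⟨P, -, h2⟩ := h
  simpa [Ord, h0] using h2

theorem line (h : Lead G x k p) (v w : E) :
    ∃ Q : Polynomial ℝ, ∀ τ : ℝ, p (v + τ • w) = Q.eval τ := by
  classical
  obtain ⟨P, hP, -⟩ := h
  refine ⟨∑ s : Finset (Fin k), Polynomial.C (P (s.piecewise (fun _ => w) (fun _ => v))) *
    Polynomial.X ^ s.card, fun τ => ?_⟩
  have h1 := P.map_add_univ (fun _ => τ • w) (fun _ => v)
  have e : (fun _ : Fin k => v + τ • w) = (fun _ => τ • w) + fun _ => v := by
    ext i; simp [add_comm]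
  rw [hP, e, h1, Polynomial.eval_finsetSum]
  refine Finset.sum_congr rfl fun s _ => ?_
  have h2 := P.map_piecewise_smul (fun _ => τ) (s.piecewise (fun _ => w) (fun _ => v)) s
  have e2 : s.piecewise (fun i => τ • s.piecewise (fun _ => w) (fun _ => v) i)
      (s.piecewise (fun _ => w) (fun _ => v)) = s.piecewise (fun _ => τ • w) (fun _ => v) := by
    ext i
    by_cases hi : i ∈ s <;> simp [hi]
  rw [e2] at h2
  rw [h2, Finset.prod_const, smul_eq_mul, Polynomial.eval_mul, Polynomial.eval_C,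
    Polynomial.eval_pow, Polynomial.eval_X, mul_comm]

theorem tendsto (h : Lead G x k p) {γ : ℝ → E} {w : E} (h0 : γ 0 = x) (hγ : HasDerivAt γ w 0) :
    Tendsto (fun τ => G (γ τ) / τ ^ k) (𝓝[≠] 0) (𝓝 (p w)) := by
  have hw : Tendsto (fun τ : ℝ => τ⁻¹ • (γ τ - x)) (𝓝[≠] 0) (𝓝 w) := by
    simpa [h0] using hγ.tendsto_slope_zero
  have h1 : Tendsto (fun τ : ℝ => p (τ⁻¹ • (γ τ - x))) (𝓝[≠] 0) (𝓝 (p w)) :=
    (h.cont.tendsto w).comp hw
  have hz : Tendsto (fun τ : ℝ => γ τ - x) (𝓝[≠] 0) (𝓝 0) := by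
    have := (hγ.continuousAt.tendsto.sub_const x).mono_left (nhdsWithin_le_nhds (s := {0}ᶜ))
    simpa [h0] using this
  have hh := h.hom
  obtain ⟨P, -, h2⟩ := h
  have h3 := h2.comp_tendsto hz
  have h4 : (fun τ : ℝ => (G (γ τ) - p (γ τ - x)) / τ ^ k) =O[𝓝[≠] 0]
      fun τ : ℝ => τ * ‖τ⁻¹ • (γ τ - x)‖ ^ (k + 1) := by
    obtain ⟨C, hC⟩ := h3.bound
    refine IsBigO.of_bound C ?_
    filter_upwards [hC, self_mem_nhdsWithin] with τ hτ hτ0
    have hτ0' : τ ≠ 0 := hτ0
    have ha : 0 < |τ| := abs_pos.2 hτ0'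
    simp only [Function.comp, add_sub_cancel, norm_pow, norm_norm] at hτ
    simp only [norm_div, norm_pow, norm_mul, norm_smul, norm_inv, Real.norm_eq_abs,
      abs_abs, abs_norm]
    rw [div_le_iff₀ (by positivity)]
    refine le_trans hτ (le_of_eq ?_)
    rw [mul_pow, inv_pow]
    field_simp
    ring
  have h5 : Tendsto (fun τ : ℝ => τ * ‖τ⁻¹ • (γ τ - x)‖ ^ (k + 1)) (𝓝[≠] 0) (𝓝 0) := by
    have := (tendsto_id.mono_left (nhdsWithin_le_nhds (a := (0 : ℝ)) (s := {0}ᶜ))).mul
      (hw.norm.pow (k + 1))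
    simpa using this
  have h6 := (h4.trans_tendsto h5).add h1
  rw [zero_add] at h6
  refine h6.congr' ?_
  filter_upwards [self_mem_nhdsWithin] with τ hτ0
  have hτ0' : τ ≠ 0 := hτ0
  rw [hh, inv_pow]
  field_simp
  ring

end Lead

/-- Leading terms of `G` at `x` and at `y` correspond under `D`. -/
def Tr (G : E → ℝ) (x y : E) (D : E → E) : Prop :=
  ∀ k p q, Lead G x k p → Lead G y k q → ∀ v, p v = q (D v)

theorem tr_of_curves {G : E → ℝ} {x y : E} {D : E → E}
    (h : ∀ v, ∃ γ δ : ℝ → E, γ 0 = x ∧ δ 0 = y ∧ HasDerivAt γ v 0 ∧ HasDerivAt δ (D v) 0 ∧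
      ∀ᶠ τ in 𝓝 (0 : ℝ), G (γ τ) = G (δ τ)) : Tr G x y D := by
  intro k p q hp hq v
  obtain ⟨γ, δ, h1, h2, h3, h4, h5⟩ := h v
  refine tendsto_nhds_unique (hp.tendsto h1 h3) ((hq.tendsto h2 h4).congr' ?_)
  filter_upwards [nhdsWithin_le_nhds h5] with τ hτ
  rw [hτ]

theorem Tr.ord {G : E → ℝ} {x y : E} {D : E → E} (h : Tr G x y D) (hD : Function.Surjective D)
    (hx : AnalyticAt ℝ G x) (hy : AnalyticAt ℝ G y) {k : ℕ} (hk : Ord G x k) : Ord G y k := by
  induction k with
  | zero => exact ord_zero hy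
  | succ k ih =>
    have hk' : Ord G x k := IsBigO.trans hk (isBigO_pow_le (Nat.le_succ k))
    obtain ⟨q, hq⟩ := exists_lead hy (ih hk')
    obtain ⟨P, hP⟩ := hx
    have hp : Lead G x k (fun _ => 0) := ⟨0, fun _ => rfl, by simpa [Ord] using hk⟩
    refine hq.ord_succ fun w => ?_
    obtain ⟨v, rfl⟩ := hD w
    exact (h k _ _ hp hq v).symm

theorem Tr.trans {G : E → ℝ} {x y z : E} {D D' : E → E} (h : Tr G x y D) (h' : Tr G y z D')
    (hD : Function.Surjective D) (hx : AnalyticAt ℝ G x) (hy : AnalyticAt ℝ G y) :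
    Tr G x z (D' ∘ D) := by
  intro k p q hp hq v
  obtain ⟨r, hr⟩ := exists_lead hy (h.ord hD hx hy hp.ord)
  rw [h k p r hp hr v, h' k r q hr hq]
  rfl

/-- Every leading term of `G` at `x` is invariant under translation in direction `w`. -/
def Dir (G : E → ℝ) (x w : E) : Prop :=
  ∀ k p, Lead G x k p → ∀ (v : E) (τ : ℝ), p (v + τ • w) = p v

theorem dir_of_unipotent {G : E → ℝ} {x w : E} (l : E →ₗ[ℝ] ℝ) (hw : l w = 0) {e : E}
    (he : l e ≠ 0) (h : Tr G x x (fun v => v + l v • w)) : Dir G x w := by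
  intro k p hp
  have key : ∀ v, l v ≠ 0 → ∀ τ : ℝ, p (v + τ • w) = p v := by
    intro v hv τ
    have h1 : ∀ j : ℕ, p (v + ((j : ℝ) * l v) • w) = p v := by
      intro j
      induction j with
      | zero => simp
      | succ j ih =>
        rw [← ih, h k p p hp hp (v + ((j : ℝ) * l v) • w)]
        congr 1
        simp only [map_add, map_smul, hw, smul_zero, add_zero]
        push_cast
        module
    obtain ⟨Q, hQ⟩ := hp.line v w
    have h2 : Q - Polynomial.C (p v) = 0 := by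
      apply Polynomial.eq_zero_of_infinite_isRoot
      refine Set.infinite_of_injective_forall_mem (f := fun j : ℕ => (j : ℝ) * l v) ?_ ?_
      · intro a b hab
        exact_mod_cast mul_right_cancel₀ hv hab
      · intro j
        simp [Polynomial.IsRoot, ← hQ, h1]
    rw [hQ, sub_eq_zero.1 h2]
    simp
  intro v τ
  by_cases hv : l v = 0
  · have hc := hp.cont
    have c1 : Continuous fun ε : ℝ => p (v + ε • e + τ • w) := by fun_prop
    have c2 : Continuous fun ε : ℝ => p (v + ε • e) := by fun_prop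
    have t1 := (c1.tendsto 0).mono_left (nhdsWithin_le_nhds (s := {0}ᶜ))
    have t2 := (c2.tendsto 0).mono_left (nhdsWithin_le_nhds (s := {0}ᶜ))
    simp only [zero_smul, add_zero] at t1 t2
    refine tendsto_nhds_unique t1 (t2.congr' ?_)
    filter_upwards [self_mem_nhdsWithin] with ε hε
    have hε' : ε ≠ 0 := hε
    exact (key _ (by simp [hv, hε', he]) τ).symm
  · exact key v hv τ

theorem Dir.transport {G : E → ℝ} {x y w : E} (hw : Dir G x w) (D : E →ₗ[ℝ] E)
    (h : Tr G x y D) {D' : E → E} (h' : Tr G y x D') (hD : Function.Surjective D)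
    (hD' : Function.Surjective D') (hx : AnalyticAt ℝ G x) (hy : AnalyticAt ℝ G y) :
    Dir G y (D w) := by
  intro k q hq v τ
  obtain ⟨p, hp⟩ := exists_lead hx (h'.ord hD' hy hx hq.ord)
  obtain ⟨v, rfl⟩ := hD v
  rw [← map_smul, ← map_add, ← h k p q hp hq, ← h k p q hp hq, hw k p hp]

end Pool.Agent.MP_62f0b1_an
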