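import Mathlib.LinearAlgebra.FreeModule.PID
import Mathlib.RingTheory.Flat.TorsionFree
import Mathlib.Topology.GDelta.MetrizableSpace
import Mathlib.Analysis.SpecialFunctions.Complex.Arg
import Mathlib.Analysis.RCLike.Lemmas
import Mathlib.Algebra.Order.Archimedean.Real.Hom
import Mathlib.Algebra.Order.Star.Real
import Mathlib.LinearAlgebra.Complex.FiniteDimensional
import Mathlib.Analysis.SpecialFunctions.ExpDeriv
import Mathlib.Analysis.Normed.Module.Connected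
import Mathlib.Analysis.Calculus.Deriv.Prod
import Mathlib.Combinatorics.SimpleGraph.Basic
import Mathlib.RingTheory.PiTensorProduct
import Mathlib.RingTheory.SimpleRing.Principal
import Mathlib.RingTheory.TotallySplit
import Mathlib.RingTheory.Etale.Weakly
import Pool.Agent.MP_62f0b1_an.Jet
import Pool.Agent.MP_62f0b1_an.Defs

-- ======== part 0: formerly Pool.Agent.MP_62f0b1_an.Tri
section MrgPart0

/-!
The correspondence on triangles in edge coordinates (for `t = 1`) and its analytic continuation.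
-/

set_option autoImplicit false
set_option linter.unusedSectionVars false

open Filter Topology Asymptotics Complex Set

namespace Pool.Agent.MP_62f0b1_an

/-- edge space -/
abbrev V := ℂ × ℂ
/-- parameter space: three angles and a signed size -/
abbrev Z := ℝ × ℝ × ℝ × ℝ

/-- unit vector with angle `θ` -/
noncomputable def ex (θ : ℝ) : ℂ := Complex.exp (θ * I)
/-- determinant of two plane vectors -/
def dt (u v : ℂ) : ℝ := u.re * v.im - u.im * v.re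
/-- inner product of two plane vectors -/
def ip (u v : ℂ) : ℝ := u.re * v.re + u.im * v.im

/-- first two edges of `r(P)` -/
noncomputable def rU (u1 u2 u3 : ℂ) (s : ℝ) : V :=
  (((1 + s * dt u2 u3 : ℝ) : ℂ) * u1 - u2, ((1 + s * dt u3 u1 : ℝ) : ℂ) * u2 - u3)
/-- first two edges of `q(P)` -/
noncomputable def qU (u1 u2 u3 : ℂ) (s : ℝ) : V :=
  (((1 + s * dt u2 u3 : ℝ) : ℂ) * u1 - u3, ((1 + s * dt u3 u1 : ℝ) : ℂ) * u2 - u1)

/-- `rU` in angle coordinates -/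
noncomputable def rr (z : Z) : V := rU (ex z.1) (ex z.2.1) (ex z.2.2.1) z.2.2.2
/-- `qU` in angle coordinates -/
noncomputable def qq (z : Z) : V := qU (ex z.1) (ex z.2.1) (ex z.2.2.1) z.2.2.2

/-- edge pairs of triangles with distinct vertices -/
def U : Set V := {x | x.1 ≠ 0 ∧ x.2 ≠ 0 ∧ x.1 + x.2 ≠ 0}

theorem ex_re (θ : ℝ) : (ex θ).re = Real.cos θ := Complex.exp_ofReal_mul_I_re θ
theorem ex_im (θ : ℝ) : (ex θ).im = Real.sin θ := Complex.exp_ofReal_mul_I_im θ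
theorem norm_ex (θ : ℝ) : ‖ex θ‖ = 1 := Complex.norm_exp_ofReal_mul_I θ
theorem ex_add (a b : ℝ) : ex (a + b) = ex a * ex b := by
  unfold ex; rw [← Complex.exp_add]; push_cast; ring_nf
theorem ex_zero : ex 0 = 1 := by simp [ex]
theorem ex_two_pi : ex (2 * Real.pi) = 1 := by
  unfold ex; push_cast; exact Complex.exp_two_pi_mul_I
theorem dt_ex (a b : ℝ) : dt (ex a) (ex b) = Real.sin (b - a) := by
  simp only [dt, ex_re, ex_im, Real.sin_sub]; ring

theorem sq_of_norm {u : ℂ} (h : ‖u‖ = 1) : u.re ^ 2 + u.im ^ 2 = 1 := by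
  have := Complex.sq_norm u
  rw [h, Complex.normSq_apply] at this
  linarith

theorem abs_dt_le {u v : ℂ} (hu : ‖u‖ = 1) (hv : ‖v‖ = 1) : |dt u v| ≤ 1 := by
  have h1 := sq_of_norm hu
  have h2 := sq_of_norm hv
  rw [← sq_le_one_iff_abs_le_one]
  unfold dt
  nlinarith [sq_nonneg (u.re * v.re + u.im * v.im)]

@[fun_prop] theorem an_ex {E : Type*} [NormedAddCommGroup E] [NormedSpace ℝ E] {f : E → ℝ} {x : E}
    (hf : AnalyticAt ℝ f x) : AnalyticAt ℝ (fun y => ex (f y)) x := by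
  unfold ex
  exact (analyticAt_cexp.restrictScalars (𝕜 := ℝ)).comp
    (((Complex.ofRealCLM.analyticAt _).comp hf).mul analyticAt_const)

@[fun_prop] theorem an_dt {E : Type*} [NormedAddCommGroup E] [NormedSpace ℝ E] {f g : E → ℂ} {x : E}
    (hf : AnalyticAt ℝ f x) (hg : AnalyticAt ℝ g x) :
    AnalyticAt ℝ (fun y => dt (f y) (g y)) x := by
  unfold dt
  exact (((Complex.reCLM.analyticAt _).comp hf).mul ((Complex.imCLM.analyticAt _).comp hg)).sub
    (((Complex.imCLM.analyticAt _).comp hf).mul ((Complex.reCLM.analyticAt _).comp hg))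

@[fun_prop] theorem an_ofReal {E : Type*} [NormedAddCommGroup E] [NormedSpace ℝ E] {f : E → ℝ}
    {x : E} (hf : AnalyticAt ℝ f x) : AnalyticAt ℝ (fun y => ((f y : ℝ) : ℂ)) x :=
  (Complex.ofRealCLM.analyticAt _).comp hf

@[fun_prop] theorem an_fst {E F G : Type*} [NormedAddCommGroup E] [NormedSpace ℝ E]
    [NormedAddCommGroup F] [NormedSpace ℝ F] [NormedAddCommGroup G] [NormedSpace ℝ G]
    {f : E → F × G} {x : E} (hf : AnalyticAt ℝ f x) : AnalyticAt ℝ (fun y => (f y).1) x :=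
  analyticAt_fst.comp hf

@[fun_prop] theorem an_snd {E F G : Type*} [NormedAddCommGroup E] [NormedSpace ℝ E]
    [NormedAddCommGroup F] [NormedSpace ℝ F] [NormedAddCommGroup G] [NormedSpace ℝ G]
    {f : E → F × G} {x : E} (hf : AnalyticAt ℝ f x) : AnalyticAt ℝ (fun y => (f y).2) x :=
  analyticAt_snd.comp hf

theorem an_rr (z : Z) : AnalyticAt ℝ rr z := by
  unfold rr rU
  fun_prop

theorem an_qq (z : Z) : AnalyticAt ℝ qq z := by
  unfold qq qU
  fun_prop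

theorem nc1 {u v : ℂ} (b : ℝ) (h : dt u v ≠ 0) : (b : ℂ) * u - v ≠ 0 := by
  intro h0
  have : v = (b : ℂ) * u := (sub_eq_zero.1 h0).symm
  apply h
  rw [this]
  simp [dt]; ring

theorem nc2 {u v : ℂ} {b : ℝ} (hu : ‖u‖ = 1) (hv : ‖v‖ = 1) (huv : u ≠ v) (hb : -1 < b) :
    (b : ℂ) * u - v ≠ 0 := by
  intro h0
  have h1 : v = (b : ℂ) * u := (sub_eq_zero.1 h0).symm
  have h2 : |b| = 1 := by
    have := congrArg norm h1
    rw [hv, norm_mul, hu, mul_one, Complex.norm_real, Real.norm_eq_abs] at this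
    exact this.symm
  have h3 : b = 1 := by
    rcases abs_eq (zero_le_one' ℝ) |>.1 h2 with h | h
    · exact h
    · linarith
  apply huv
  rw [h1, h3]; simp

theorem dt_comm (u v : ℂ) : dt u v = -dt v u := by unfold dt; ring

theorem r_third (u1 u2 u3 : ℂ) (s : ℝ) : (rU u1 u2 u3 s).1 + (rU u1 u2 u3 s).2 =
    -(((1 + s * dt u1 u2 : ℝ) : ℂ) * u3 - u1) := by
  apply Complex.ext <;> simp [rU, dt] <;> ring

theorem q_third (u1 u2 u3 : ℂ) (s : ℝ) : (qU u1 u2 u3 s).1 + (qU u1 u2 u3 s).2 =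
    -(((1 + s * dt u1 u2 : ℝ) : ℂ) * u3 - u2) := by
  apply Complex.ext <;> simp [qU, dt] <;> ring

theorem mem_U_of_dt {u1 u2 u3 : ℂ} (s : ℝ) (h1 : dt u2 u3 ≠ 0) (h2 : dt u3 u1 ≠ 0)
    (h3 : dt u1 u2 ≠ 0) : rU u1 u2 u3 s ∈ U ∧ qU u1 u2 u3 s ∈ U := by
  refine ⟨⟨nc1 _ h3, nc1 _ h1, ?_⟩, ⟨nc1 _ ?_, nc1 _ ?_, ?_⟩⟩
  · rw [r_third]; exact neg_ne_zero.2 (nc1 _ h2)
  · rw [dt_comm]; exact neg_ne_zero.2 h2
  · rw [dt_comm]; exact neg_ne_zero.2 h3
  · rw [q_third]; refine neg_ne_zero.2 (nc1 _ ?_); rw [dt_comm]; exact neg_ne_zero.2 h1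

theorem mem_U_of_ne {u1 u2 u3 : ℂ} {s : ℝ} (n1 : ‖u1‖ = 1) (n2 : ‖u2‖ = 1) (n3 : ‖u3‖ = 1)
    (hs : |s| < 2) (h1 : u2 ≠ u3) (h2 : u3 ≠ u1) (h3 : u1 ≠ u2) :
    rU u1 u2 u3 s ∈ U ∧ qU u1 u2 u3 s ∈ U := by
  have hb : ∀ u v : ℂ, ‖u‖ = 1 → ‖v‖ = 1 → -1 < 1 + s * dt u v := by
    intro u v hu hv
    have h1 := abs_dt_le hu hv
    have h2 : |s * dt u v| < 2 := by
      rw [abs_mul]; nlinarith [abs_nonneg s, abs_nonneg (dt u v)]
    linarith [(abs_lt.1 h2).1]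
  refine ⟨⟨nc2 n1 n2 h3 (hb _ _ n2 n3), nc2 n2 n3 h1 (hb _ _ n3 n1), ?_⟩,
    ⟨nc2 n1 n3 h2.symm (hb _ _ n2 n3), nc2 n2 n1 h3.symm (hb _ _ n3 n1), ?_⟩⟩
  · rw [r_third]; exact neg_ne_zero.2 (nc2 n3 n1 h2 (hb _ _ n1 n2))
  · rw [q_third]; exact neg_ne_zero.2 (nc2 n3 n2 h1.symm (hb _ _ n1 n2))

theorem distinct_of_two {u v w : ℂ} (h1 : 0 < dt v w) (h2 : 0 < dt w u) :
    v ≠ w ∧ w ≠ u ∧ u ≠ v := by
  refine ⟨?_, ?_, ?_⟩
  · rintro rfl; simp [dt, mul_comm] at h1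
  · rintro rfl; simp [dt, mul_comm] at h2
  · rintro rfl; rw [dt_comm] at h1; linarith

/-- Analytic, rotation invariant functions that are invariant under the standard branch. -/
structure Adm (G : V → ℝ) : Prop where
  an : ∀ x ∈ U, AnalyticAt ℝ G x
  rot : ∀ x ∈ U, ∀ τ : ℝ, G (ex τ * x.1, ex τ * x.2) = G x
  inv : ∀ (u1 u2 u3 : ℂ) (s : ℝ), ‖u1‖ = 1 → ‖u2‖ = 1 → ‖u3‖ = 1 → 2 < s * dt u2 u3 →
    2 < s * dt u3 u1 → 2 < s * dt u1 u2 → G (rU u1 u2 u3 s) = G (qU u1 u2 u3 s)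

/-- first angle gap condition -/
def Ca : Set Z := {z | z.2.1 - z.1 ∈ Ioo 0 Real.pi}
/-- second angle gap condition -/
def Cb : Set Z := {z | z.2.2.1 - z.2.1 ∈ Ioo 0 Real.pi}
/-- third angle gap condition -/
def Cc : Set Z := {z | z.1 - z.2.2.1 ∈ Ioo (-(2 * Real.pi)) (-Real.pi)}
/-- size condition -/
def Cs : Set Z := {z | z.2.2.2 ∈ Ioo (-2) 2}

theorem conv_a : Convex ℝ Ca := (convex_Ioo _ _).is_linear_preimage
  (f := fun z : Z => z.2.1 - z.1) ⟨fun a b => by simp; ring, fun c a => by simp; ring⟩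
theorem conv_b : Convex ℝ Cb := (convex_Ioo _ _).is_linear_preimage
  (f := fun z : Z => z.2.2.1 - z.2.1) ⟨fun a b => by simp; ring, fun c a => by simp; ring⟩
theorem conv_c : Convex ℝ Cc := (convex_Ioo _ _).is_linear_preimage
  (f := fun z : Z => z.1 - z.2.2.1) ⟨fun a b => by simp; ring, fun c a => by simp; ring⟩
theorem conv_s : Convex ℝ Cs := (convex_Ioo _ _).is_linear_preimage
  (f := fun z : Z => z.2.2.2) ⟨fun a b => by simp, fun c a => by simp⟩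
theorem open_a : IsOpen Ca := isOpen_Ioo.preimage (f := fun z : Z => z.2.1 - z.1) (by fun_prop)
theorem open_b : IsOpen Cb := isOpen_Ioo.preimage (f := fun z : Z => z.2.2.1 - z.2.1) (by fun_prop)
theorem open_c : IsOpen Cc := isOpen_Ioo.preimage (f := fun z : Z => z.1 - z.2.2.1) (by fun_prop)
theorem open_s : IsOpen Cs := isOpen_Ioo.preimage (f := fun z : Z => z.2.2.2) (by fun_prop)

theorem pos_a {z : Z} (h : z ∈ Ca) : 0 < dt (ex z.1) (ex z.2.1) := by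
  rw [dt_ex]; exact Real.sin_pos_of_pos_of_lt_pi h.1 h.2
theorem pos_b {z : Z} (h : z ∈ Cb) : 0 < dt (ex z.2.1) (ex z.2.2.1) := by
  rw [dt_ex]; exact Real.sin_pos_of_pos_of_lt_pi h.1 h.2
theorem pos_c {z : Z} (h : z ∈ Cc) : 0 < dt (ex z.2.2.1) (ex z.1) := by
  rw [dt_ex, ← Real.sin_add_two_pi]
  exact Real.sin_pos_of_pos_of_lt_pi (by linarith [h.1]) (by linarith [h.2])

theorem base_mem (s : ℝ) : ((0, 2 * Real.pi / 3, 4 * Real.pi / 3, s) : Z) ∈ Ca ∩ Cb ∩ Cc := by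
  have := Real.pi_pos
  refine ⟨⟨⟨?_, ?_⟩, ⟨?_, ?_⟩⟩, ⟨?_, ?_⟩⟩ <;> simp only <;> linarith

theorem Adm.continue {G : V → ℝ} (h : Adm G) {W : Set Z} (hW : Convex ℝ W)
    (hU : ∀ z ∈ W, rr z ∈ U ∧ qq z ∈ U) {z₀ : Z} (h0 : z₀ ∈ W)
    (he : ∀ᶠ z in 𝓝 z₀, G (rr z) = G (qq z)) : ∀ z ∈ W, G (rr z) = G (qq z) := by
  have h1 : AnalyticOnNhd ℝ (fun z => G (rr z)) W :=
    fun z hz => (h.an _ (hU z hz).1).comp (an_rr z)
  have h2 : AnalyticOnNhd ℝ (fun z => G (qq z)) W :=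
    fun z hz => (h.an _ (hU z hz).2).comp (an_qq z)
  exact h1.eqOn_of_preconnected_of_eventuallyEq h2 hW.isPreconnected h0 he

theorem Adm.id0 {G : V → ℝ} (h : Adm G) : ∀ z ∈ Ca ∩ Cb ∩ Cc, G (rr z) = G (qq z) := by
  have hb := base_mem 0
  have p1 := pos_a hb.1.1
  have p2 := pos_b hb.1.2
  have p3 := pos_c hb.2
  simp only at p1 p2 p3
  set s₀ := 3 / dt (ex 0) (ex (2 * Real.pi / 3)) + 3 / dt (ex (2 * Real.pi / 3)) (ex (4 * Real.pi / 3))
    + 3 / dt (ex (4 * Real.pi / 3)) (ex 0) with hs₀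
  refine h.continue ((conv_a.inter conv_b).inter conv_c)
    (fun z hz => mem_U_of_dt _ (pos_b hz.1.2).ne' (pos_c hz.2).ne' (pos_a hz.1.1).ne')
    (base_mem s₀) ?_
  have key : ∀ a b c : ℝ, 0 < a → 0 < b → 0 < c → 2 < (3 / a + 3 / b + 3 / c) * a := by
    intro a b c ha hb hc
    have : (3 / a + 3 / b + 3 / c) * a = 3 + (3 / b + 3 / c) * a := by field_simp; ring
    rw [this]
    have : 0 < (3 / b + 3 / c) * a := by positivity
    linarith
  have an : ∀ (f g : Z → ℝ), (∀ z, AnalyticAt ℝ f z) → (∀ z, AnalyticAt ℝ g z) → ∀ z₀ : Z,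
      2 < z₀.2.2.2 * dt (ex (f z₀)) (ex (g z₀)) →
      ∀ᶠ z in 𝓝 z₀, 2 < z.2.2.2 * dt (ex (f z)) (ex (g z)) := by
    intro f g hf hg z₀ h0
    have hf' := hf z₀
    have hg' := hg z₀
    have : AnalyticAt ℝ (fun z : Z => z.2.2.2 * dt (ex (f z)) (ex (g z))) z₀ := by fun_prop
    exact this.continuousAt.eventually (lt_mem_nhds h0)
  have e1 := an (fun z => z.2.1) (fun z => z.2.2.1) (fun z => by fun_prop) (fun z => by fun_prop)
    (0, 2 * Real.pi / 3, 4 * Real.pi / 3, s₀) (by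
      have := key _ _ _ p2 p1 p3
      simp only [hs₀]; linarith)
  have e2 := an (fun z => z.2.2.1) (fun z => z.1) (fun z => by fun_prop) (fun z => by fun_prop)
    (0, 2 * Real.pi / 3, 4 * Real.pi / 3, s₀) (by
      have := key _ _ _ p3 p1 p2
      simp only [hs₀]; linarith)
  have e3 := an (fun z => z.1) (fun z => z.2.1) (fun z => by fun_prop) (fun z => by fun_prop)
    (0, 2 * Real.pi / 3, 4 * Real.pi / 3, s₀) (by
      have := key _ _ _ p1 p2 p3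
      simp only [hs₀]; linarith)
  filter_upwards [e1, e2, e3] with z h1 h2 h3
  exact h.inv _ _ _ _ (norm_ex _) (norm_ex _) (norm_ex _) h1 h2 h3

theorem Adm.id_base {G : V → ℝ} (h : Adm G) :
    ∀ᶠ z in 𝓝 ((0, 2 * Real.pi / 3, 4 * Real.pi / 3, 0) : Z), G (rr z) = G (qq z) := by
  filter_upwards [((open_a.inter open_b).inter open_c).mem_nhds (base_mem 0)] with z hz
  exact h.id0 z hz

theorem base_s : ((0, 2 * Real.pi / 3, 4 * Real.pi / 3, 0) : Z) ∈ Cs := by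
  constructor <;> norm_num

theorem Adm.id3 {G : V → ℝ} (h : Adm G) : ∀ z ∈ Cb ∩ Cc ∩ Cs, G (rr z) = G (qq z) := by
  refine h.continue ((conv_b.inter conv_c).inter conv_s) (fun z hz => ?_)
    ⟨⟨(base_mem 0).1.2, (base_mem 0).2⟩, base_s⟩ h.id_base
  obtain ⟨d1, d2, d3⟩ := distinct_of_two (pos_b hz.1.1) (pos_c hz.1.2)
  exact mem_U_of_ne (norm_ex _) (norm_ex _) (norm_ex _) (abs_lt.2 hz.2) d1 d2 d3

theorem Adm.id1 {G : V → ℝ} (h : Adm G) : ∀ z ∈ Cc ∩ Ca ∩ Cs, G (rr z) = G (qq z) := by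
  refine h.continue ((conv_c.inter conv_a).inter conv_s) (fun z hz => ?_)
    ⟨⟨(base_mem 0).2, (base_mem 0).1.1⟩, base_s⟩ h.id_base
  obtain ⟨d1, d2, d3⟩ := distinct_of_two (pos_c hz.1.1) (pos_a hz.1.2)
  exact mem_U_of_ne (norm_ex _) (norm_ex _) (norm_ex _) (abs_lt.2 hz.2) d3 d1 d2

theorem Adm.id2 {G : V → ℝ} (h : Adm G) : ∀ z ∈ Ca ∩ Cb ∩ Cs, G (rr z) = G (qq z) := by
  refine h.continue ((conv_a.inter conv_b).inter conv_s) (fun z hz => ?_)
    ⟨⟨(base_mem 0).1.1, (base_mem 0).1.2⟩, base_s⟩ h.id_base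
  obtain ⟨d1, d2, d3⟩ := distinct_of_two (pos_a hz.1.1) (pos_b hz.1.2)
  exact mem_U_of_ne (norm_ex _) (norm_ex _) (norm_ex _) (abs_lt.2 hz.2) d2 d3 d1

theorem exists_ex {u : ℂ} (hu : ‖u‖ = 1) : ∃ θ, ex θ = u := by
  refine ⟨u.arg, ?_⟩
  have := Complex.norm_mul_exp_arg_mul_I u
  rw [hu] at this
  simpa [ex] using this

theorem exists_gap {u v : ℂ} (hu : ‖u‖ = 1) (hv : ‖v‖ = 1) (h : 0 < dt u v) {a : ℝ}
    (ha : ex a = u) : ∃ β ∈ Ioo 0 Real.pi, ex (a + β) = v := by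
  have hu0 : u ≠ 0 := by rintro rfl; simp at hu
  have hw : ‖v / u‖ = 1 := by rw [norm_div, hu, hv, div_one]
  have him : 0 < (v / u).im := by
    rw [Complex.div_im, Complex.normSq_eq_norm_sq, hu]
    unfold dt at h
    simp; linarith
  refine ⟨(v / u).arg, ⟨?_, ?_⟩, ?_⟩
  · rcases (Complex.arg_nonneg_iff.2 him.le).eq_or_lt with h0 | h0
    · have := (Complex.arg_eq_zero_iff.1 h0.symm).2
      linarith
    · exact h0
  · exact Complex.arg_lt_pi_iff.2 (Or.inr him.ne')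
  · have := Complex.norm_mul_exp_arg_mul_I (v / u)
    rw [hw] at this
    rw [ex_add, ha]
    have e : ex (v / u).arg = v / u := by simpa [ex] using this
    rw [e]; field_simp

/-- The continued identity holds near the parameters `u1, u2, u3, s`. -/
def Near (G : V → ℝ) (u1 u2 u3 : ℂ) (s : ℝ) : Prop :=
  ∃ a b c : ℝ, ex a = u1 ∧ ex b = u2 ∧ ex c = u3 ∧
    ∀ᶠ z in 𝓝 ((a, b, c, s) : Z), G (rr z) = G (qq z)

theorem ex_sub_two_pi (a : ℝ) : ex (a - 2 * Real.pi) = ex a := by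
  have := ex_add (a - 2 * Real.pi) (2 * Real.pi)
  rw [ex_two_pi, mul_one, sub_add_cancel] at this
  exact this.symm

theorem Adm.near3 {G : V → ℝ} (h : Adm G) {u1 u2 u3 : ℂ} (n1 : ‖u1‖ = 1) (n2 : ‖u2‖ = 1)
    (n3 : ‖u3‖ = 1) (h1 : 0 < dt u2 u3) (h2 : 0 < dt u3 u1) : Near G u1 u2 u3 0 := by
  obtain ⟨b, hb⟩ := exists_ex n2
  obtain ⟨β, hβ, hc⟩ := exists_gap n2 n3 h1 hb
  obtain ⟨γ, hγ, ha⟩ := exists_gap n3 n1 h2 hc
  refine ⟨b + β + γ - 2 * Real.pi, b, b + β, by rw [ex_sub_two_pi, ha], hb, hc, ?_⟩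
  have hm : ((b + β + γ - 2 * Real.pi, b, b + β, 0) : Z) ∈ Cb ∩ Cc ∩ Cs := by
    refine ⟨⟨⟨?_, ?_⟩, ⟨?_, ?_⟩⟩, ⟨?_, ?_⟩⟩ <;> simp only <;> linarith [hβ.1, hβ.2, hγ.1, hγ.2]
  filter_upwards [((open_b.inter open_c).inter open_s).mem_nhds hm] with z hz
  exact h.id3 z hz

theorem Adm.near1 {G : V → ℝ} (h : Adm G) {u1 u2 u3 : ℂ} (n1 : ‖u1‖ = 1) (n2 : ‖u2‖ = 1)
    (n3 : ‖u3‖ = 1) (h2 : 0 < dt u3 u1) (h3 : 0 < dt u1 u2) : Near G u1 u2 u3 0 := by
  obtain ⟨c, hc⟩ := exists_ex n3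
  obtain ⟨γ, hγ, ha⟩ := exists_gap n3 n1 h2 hc
  obtain ⟨α, hα, hb⟩ := exists_gap n1 n2 h3 ha
  refine ⟨c + γ - 2 * Real.pi, c + γ + α - 2 * Real.pi, c, by rw [ex_sub_two_pi, ha],
    by rw [ex_sub_two_pi, hb], hc, ?_⟩
  have hm : ((c + γ - 2 * Real.pi, c + γ + α - 2 * Real.pi, c, 0) : Z) ∈ Cc ∩ Ca ∩ Cs := by
    refine ⟨⟨⟨?_, ?_⟩, ⟨?_, ?_⟩⟩, ⟨?_, ?_⟩⟩ <;> simp only <;> linarith [hα.1, hα.2, hγ.1, hγ.2]
  filter_upwards [((open_c.inter open_a).inter open_s).mem_nhds hm] with z hz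
  exact h.id1 z hz

theorem Adm.near2 {G : V → ℝ} (h : Adm G) {u1 u2 u3 : ℂ} (n1 : ‖u1‖ = 1) (n2 : ‖u2‖ = 1)
    (n3 : ‖u3‖ = 1) (h3 : 0 < dt u1 u2) (h1 : 0 < dt u2 u3) : Near G u1 u2 u3 0 := by
  obtain ⟨a, ha⟩ := exists_ex n1
  obtain ⟨α, hα, hb⟩ := exists_gap n1 n2 h3 ha
  obtain ⟨β, hβ, hc⟩ := exists_gap n2 n3 h1 hb
  refine ⟨a, a + α, a + α + β, ha, hb, hc, ?_⟩
  have hm : ((a, a + α, a + α + β, 0) : Z) ∈ Ca ∩ Cb ∩ Cs := by
    refine ⟨⟨⟨?_, ?_⟩, ⟨?_, ?_⟩⟩, ⟨?_, ?_⟩⟩ <;> simp only <;> linarith [hα.1, hα.2, hβ.1, hβ.2]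
  filter_upwards [((open_a.inter open_b).inter open_s).mem_nhds hm] with z hz
  exact h.id2 z hz

theorem Adm.near0 {G : V → ℝ} (h : Adm G) {u1 u2 u3 : ℂ} (n1 : ‖u1‖ = 1) (n2 : ‖u2‖ = 1)
    (n3 : ‖u3‖ = 1) (h1 : 0 < dt u2 u3) (h2 : 0 < dt u3 u1) (h3 : 0 < dt u1 u2) (s : ℝ) :
    Near G u1 u2 u3 s := by
  obtain ⟨a, ha⟩ := exists_ex n1
  obtain ⟨α, hα, hb⟩ := exists_gap n1 n2 h3 ha
  obtain ⟨β, hβ, hc⟩ := exists_gap n2 n3 h1 hb
  refine ⟨a, a + α, a + α + β, ha, hb, hc, ?_⟩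
  have hαβ : Real.pi < α + β := by
    by_contra hcon
    push Not at hcon
    rw [← ha, ← hc, dt_ex] at h2
    have e : a - (a + α + β) = -(α + β) := by ring
    rw [e, Real.sin_neg] at h2
    have := Real.sin_nonneg_of_nonneg_of_le_pi (by linarith [hα.1, hβ.1] : 0 ≤ α + β) hcon
    linarith
  have hm : ((a, a + α, a + α + β, s) : Z) ∈ Ca ∩ Cb ∩ Cc := by
    refine ⟨⟨⟨?_, ?_⟩, ⟨?_, ?_⟩⟩, ⟨?_, ?_⟩⟩ <;> simp only <;> linarith [hα.1, hα.2, hβ.1, hβ.2]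
  filter_upwards [((open_a.inter open_b).inter open_c).mem_nhds hm] with z hz
  exact h.id0 z hz

end Pool.Agent.MP_62f0b1_an

end MrgPart0

-- ======== part 1: formerly Pool.Agent.MP_62f0b1_an.Loop
section MrgPart1

/-!
Linearised correspondence, the unipotent loops on the triangles of circumradius one, and the
resulting rigidity of leading terms.
-/

set_option autoImplicit false
set_option linter.unusedSectionVars false

open Filter Topology Asymptotics Complex Set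

namespace Pool.Agent.MP_62f0b1_an

/-- derivative of `rr` -/
noncomputable def Dr (u1 u2 u3 : ℂ) (s : ℝ) : Z →ₗ[ℝ] V where
  toFun z :=
    (((z.2.2.2 * dt u2 u3 + s * ((z.2.2.1 - z.2.1) * ip u2 u3) : ℝ) : ℂ) * u1 +
        ((1 + s * dt u2 u3 : ℝ) : ℂ) * (z.1 * I * u1) - z.2.1 * I * u2,
      ((z.2.2.2 * dt u3 u1 + s * ((z.1 - z.2.2.1) * ip u3 u1) : ℝ) : ℂ) * u2 +
        ((1 + s * dt u3 u1 : ℝ) : ℂ) * (z.2.1 * I * u2) - z.2.2.1 * I * u3)
  map_add' a b := by ext <;> simp <;> ring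
  map_smul' c a := by ext <;> simp <;> ring

/-- derivative of `qq` -/
noncomputable def Dq (u1 u2 u3 : ℂ) (s : ℝ) : Z →ₗ[ℝ] V where
  toFun z :=
    (((z.2.2.2 * dt u2 u3 + s * ((z.2.2.1 - z.2.1) * ip u2 u3) : ℝ) : ℂ) * u1 +
        ((1 + s * dt u2 u3 : ℝ) : ℂ) * (z.1 * I * u1) - z.2.2.1 * I * u3,
      ((z.2.2.2 * dt u3 u1 + s * ((z.1 - z.2.2.1) * ip u3 u1) : ℝ) : ℂ) * u2 +
        ((1 + s * dt u3 u1 : ℝ) : ℂ) * (z.2.1 * I * u2) - z.1 * I * u1)
  map_add' a b := by ext <;> simp <;> ring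
  map_smul' c a := by ext <;> simp <;> ring

theorem hd_ex (a δ : ℝ) : HasDerivAt (fun τ : ℝ => ex (a + τ * δ)) (δ * I * ex a) 0 := by
  have h1 : HasDerivAt (fun τ : ℝ => ((a + τ * δ : ℝ) : ℂ) * I) (δ * I) 0 := by
    have := ((((hasDerivAt_id (0 : ℝ)).mul_const δ).const_add a).ofReal_comp).mul_const I
    simpa using this
  have h2 := h1.cexp
  simp only [zero_mul, add_zero] at h2
  unfold ex
  exact h2.congr_deriv (by ring)

theorem hd_re {f : ℝ → ℂ} {f' : ℂ} (h : HasDerivAt f f' 0) :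
    HasDerivAt (fun τ => (f τ).re) f'.re 0 :=
  Complex.reCLM.hasFDerivAt.comp_hasDerivAt 0 h

theorem hd_im {f : ℝ → ℂ} {f' : ℂ} (h : HasDerivAt f f' 0) :
    HasDerivAt (fun τ => (f τ).im) f'.im 0 :=
  Complex.imCLM.hasFDerivAt.comp_hasDerivAt 0 h

theorem hd_dt {f g : ℝ → ℂ} {f' g' : ℂ} (hf : HasDerivAt f f' 0) (hg : HasDerivAt g g' 0) :
    HasDerivAt (fun τ => dt (f τ) (g τ)) (dt f' (g 0) + dt (f 0) g') 0 := by
  unfold dt
  exact (((hd_re hf).mul (hd_im hg)).sub ((hd_im hf).mul (hd_re hg))).congr_deriv (by ring)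

theorem hd_coef (a b s δa δb σ : ℝ) :
    HasDerivAt (fun τ : ℝ => ((1 + (s + τ * σ) * dt (ex (a + τ * δa)) (ex (b + τ * δb)) : ℝ) : ℂ))
      ((σ * dt (ex a) (ex b) + s * ((δb - δa) * ip (ex a) (ex b)) : ℝ) : ℂ) 0 := by
  have h1 : HasDerivAt (fun τ : ℝ => s + τ * σ) σ 0 :=
    (((hasDerivAt_id (0 : ℝ)).mul_const σ).const_add s).congr_deriv (by simp)
  have h2 := ((h1.mul (hd_dt (hd_ex a δa) (hd_ex b δb))).const_add 1).ofReal_comp
  refine h2.congr_deriv ?_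
  congr 1
  simp only [zero_mul, add_zero, dt, ip, mul_re, mul_im, ofReal_re, ofReal_im, I_re, I_im]
  ring

theorem hd_rr (a b c s : ℝ) (z : Z) :
    HasDerivAt (fun τ : ℝ => rr ((a, b, c, s) + τ • z)) (Dr (ex a) (ex b) (ex c) s z) 0 := by
  have h1 := ((hd_coef b c s z.2.1 z.2.2.1 z.2.2.2).mul (hd_ex a z.1)).sub (hd_ex b z.2.1)
  have h2 := ((hd_coef c a s z.2.2.1 z.1 z.2.2.2).mul (hd_ex b z.2.1)).sub (hd_ex c z.2.2.1)
  refine (h1.prodMk h2).congr_deriv ?_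
  simp [Dr]

theorem hd_qq (a b c s : ℝ) (z : Z) :
    HasDerivAt (fun τ : ℝ => qq ((a, b, c, s) + τ • z)) (Dq (ex a) (ex b) (ex c) s z) 0 := by
  have h1 := ((hd_coef b c s z.2.1 z.2.2.1 z.2.2.2).mul (hd_ex a z.1)).sub (hd_ex c z.2.2.1)
  have h2 := ((hd_coef c a s z.2.2.1 z.1 z.2.2.2).mul (hd_ex b z.2.1)).sub (hd_ex a z.1)
  refine (h1.prodMk h2).congr_deriv ?_
  simp [Dq]

theorem Near.curves {G : V → ℝ} {u1 u2 u3 : ℂ} {s : ℝ} (h : Near G u1 u2 u3 s) (z : Z) :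
    ∃ γ δ : ℝ → V, γ 0 = rU u1 u2 u3 s ∧ δ 0 = qU u1 u2 u3 s ∧ HasDerivAt γ (Dr u1 u2 u3 s z) 0 ∧
      HasDerivAt δ (Dq u1 u2 u3 s z) 0 ∧ ∀ᶠ τ in 𝓝 (0 : ℝ), G (γ τ) = G (δ τ) := by
  obtain ⟨a, b, c, rfl, rfl, rfl, he⟩ := h
  refine ⟨_, _, by simp [rr], by simp [qq], hd_rr a b c s z, hd_qq a b c s z, ?_⟩
  have : Tendsto (fun τ : ℝ => ((a, b, c, s) : Z) + τ • z) (𝓝 0) (𝓝 (a, b, c, s)) := by
    have hc : Continuous (fun τ : ℝ => ((a, b, c, s) : Z) + τ • z) := by fun_prop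
    simpa using hc.tendsto 0
  exact this.eventually he

theorem Near.tr {G : V → ℝ} {u1 u2 u3 : ℂ} {s : ℝ} (h : Near G u1 u2 u3 s) {D : V → V}
    (hs : Function.Surjective (Dr u1 u2 u3 s)) (hD : ∀ z, D (Dr u1 u2 u3 s z) = Dq u1 u2 u3 s z) :
    Tr G (rU u1 u2 u3 s) (qU u1 u2 u3 s) D := by
  refine tr_of_curves fun v => ?_
  obtain ⟨z, rfl⟩ := hs v
  rw [hD]
  exact h.curves z

theorem Near.tr' {G : V → ℝ} {u1 u2 u3 : ℂ} {s : ℝ} (h : Near G u1 u2 u3 s) {D : V → V}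
    (hs : Function.Surjective (Dq u1 u2 u3 s)) (hD : ∀ z, D (Dq u1 u2 u3 s z) = Dr u1 u2 u3 s z) :
    Tr G (qU u1 u2 u3 s) (rU u1 u2 u3 s) D := by
  refine tr_of_curves fun v => ?_
  obtain ⟨z, rfl⟩ := hs v
  rw [hD]
  obtain ⟨γ, δ, h1, h2, h3, h4, h5⟩ := h.curves z
  exact ⟨δ, γ, h2, h1, h4, h3, h5.mono fun τ hτ => hτ.symm⟩

theorem finrank_ZV : Module.finrank ℝ Z = Module.finrank ℝ V := by
  simp [Module.finrank_prod, Complex.finrank_real_complex]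

theorem surj_of_inj (f : Z →ₗ[ℝ] V) (h : ∀ z, f z = 0 → z = 0) : Function.Surjective f :=
  (LinearMap.injective_iff_surjective_of_finrank_eq_finrank finrank_ZV).1
    ((injective_iff_map_eq_zero f).2 h)

/-- normalising constant -/
noncomputable def hh (u1 u2 u3 : ℂ) : ℝ := (dt u2 u3 ^ 2 + dt u3 u1 ^ 2 + dt u1 u2 ^ 2) / 2

/-- conormal of the surface of triangles with circumradius one -/
noncomputable def ell (u1 u2 u3 : ℂ) : V →ₗ[ℝ] ℝ where
  toFun v := (ip v.1 ((dt u2 u3 : ℂ) * u1) - ip v.2 ((dt u1 u2 : ℂ) * u3)) / hh u1 u2 u3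
  map_add' a b := by simp [ip]; ring
  map_smul' c a := by simp [ip]; ring

/-- the linearised branch through a triangle of circumradius one -/
noncomputable def D0 (u1 u2 u3 : ℂ) : V →ₗ[ℝ] V where
  toFun v := (v.1 + v.2 - (ell u1 u2 u3 v : ℂ) * ((dt u3 u1 : ℂ) * u2),
    -v.1 - (ell u1 u2 u3 v : ℂ) * ((dt u1 u2 : ℂ) * u3))
  map_add' a b := by ext <;> simp <;> ring
  map_smul' c a := by ext <;> simp <;> ring

theorem hh_pos {u1 u2 u3 : ℂ} (h : dt u1 u2 ≠ 0) : 0 < hh u1 u2 u3 := by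
  unfold hh; positivity

theorem hh_shift (u1 u2 u3 : ℂ) : hh (-u3) (-u1) (-u2) = hh u1 u2 u3 := by
  simp [hh, dt]; ring

theorem ell_Dr {u1 u2 u3 : ℂ} (n1 : ‖u1‖ = 1) (n2 : ‖u2‖ = 1) (n3 : ‖u3‖ = 1)
    (h : dt u1 u2 ≠ 0) (z : Z) : ell u1 u2 u3 (Dr u1 u2 u3 0 z) = z.2.2.2 := by
  have h0 := (hh_pos (u3 := u3) h).ne'
  have e1 := sq_of_norm n1
  have e2 := sq_of_norm n2
  have e3 := sq_of_norm n3
  simp only [ell, LinearMap.coe_mk, AddHom.coe_mk]
  rw [div_eq_iff h0]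
  simp [Dr, ip, hh, dt]
  linear_combination (z.2.2.2 * (u2.re * u3.im - u2.im * u3.re) ^ 2 / 2) * e1
    + (z.2.2.2 * (u3.re * u1.im - u3.im * u1.re) ^ 2 / 2) * e2
    + (z.2.2.2 * (u1.re * u2.im - u1.im * u2.re) ^ 2 / 2) * e3

theorem ell_shift (u1 u2 u3 : ℂ) (v : V) :
    ell (-u3) (-u1) (-u2) (D0 u1 u2 u3 v) = ell u1 u2 u3 v := by
  have key : ∀ c : ℝ, ell (-u3) (-u1) (-u2) (v.1 + v.2 - (c : ℂ) * ((dt u3 u1 : ℂ) * u2),
      -v.1 - (c : ℂ) * ((dt u1 u2 : ℂ) * u3)) = ell u1 u2 u3 v := by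
    intro c
    simp only [ell, LinearMap.coe_mk, AddHom.coe_mk, hh_shift]
    congr 1
    simp [ip, dt]
    ring
  exact key _

theorem D0_Dr {u1 u2 u3 : ℂ} (n1 : ‖u1‖ = 1) (n2 : ‖u2‖ = 1) (n3 : ‖u3‖ = 1)
    (h : dt u1 u2 ≠ 0) (z : Z) : D0 u1 u2 u3 (Dr u1 u2 u3 0 z) = Dq u1 u2 u3 0 z := by
  have := ell_Dr n1 n2 n3 h z
  simp only [D0, LinearMap.coe_mk, AddHom.coe_mk, this]
  refine Prod.ext ?_ ?_ <;> apply Complex.ext <;> simp [Dr, Dq, dt] <;> ring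

theorem Dr_surj {u1 u2 u3 : ℂ} (n1 : ‖u1‖ = 1) (n2 : ‖u2‖ = 1) (n3 : ‖u3‖ = 1)
    (h3 : dt u1 u2 ≠ 0) (h1 : dt u2 u3 ≠ 0) : Function.Surjective (Dr u1 u2 u3 0) := by
  refine surj_of_inj _ fun z hz => ?_
  have e := ell_Dr n1 n2 n3 h3 z
  rw [hz, map_zero] at e
  have a1 := congrArg (fun v : V => v.1.re) hz
  have a2 := congrArg (fun v : V => v.1.im) hz
  have a3 := congrArg (fun v : V => v.2.re) hz
  have a4 := congrArg (fun v : V => v.2.im) hz
  simp [Dr, ← e] at a1 a2 a3 a4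
  have b1 : z.1 * dt u1 u2 = 0 := by unfold dt; linear_combination u2.re * a1 + u2.im * a2
  have b2 : z.2.1 * dt u1 u2 = 0 := by unfold dt; linear_combination u1.re * a1 + u1.im * a2
  have b3 : z.2.2.1 * dt u2 u3 = 0 := by unfold dt; linear_combination u2.re * a3 + u2.im * a4
  exact Prod.ext ((mul_eq_zero.1 b1).resolve_right h3) (Prod.ext ((mul_eq_zero.1 b2).resolve_right h3)
    (Prod.ext ((mul_eq_zero.1 b3).resolve_right h1) e.symm))

theorem D0_surj (u1 u2 u3 : ℂ) : Function.Surjective (D0 u1 u2 u3) := by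
  refine LinearMap.injective_iff_surjective.1 ((injective_iff_map_eq_zero _).2 fun v hv => ?_)
  have e := ell_shift u1 u2 u3 v
  rw [hv, map_zero] at e
  have a1 := congrArg Prod.fst hv
  have a2 := congrArg Prod.snd hv
  simp [D0, ← e] at a1 a2
  rw [a2, zero_add] at a1
  exact Prod.ext a2 a1

theorem q_eq_r (u1 u2 u3 : ℂ) : qU u1 u2 u3 0 = rU (-u3) (-u1) (-u2) 0 := by
  ext <;> simp [qU, rU] <;> ring

theorem Adm.tr_neg {G : V → ℝ} (h : Adm G) {x : V} (hx : x ∈ U) :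
    Tr G (-x) x (fun v => -v) := by
  have hU : IsOpen U := by
    unfold U
    exact (isOpen_ne_fun (by fun_prop) (by fun_prop)).inter
      ((isOpen_ne_fun (by fun_prop) (by fun_prop)).inter (isOpen_ne_fun (by fun_prop) (by fun_prop)))
  refine tr_of_curves fun v => ⟨fun τ => -x + τ • v, fun τ => x + τ • (-v), by simp, by simp,
    ?_, ?_, ?_⟩
  · simpa using ((hasDerivAt_id (0 : ℝ)).smul_const v).const_add (-x)
  · simpa using ((hasDerivAt_id (0 : ℝ)).smul_const (-v)).const_add x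
  · have hc : Continuous (fun τ : ℝ => x + τ • (-v)) := by fun_prop
    have : ∀ᶠ τ in 𝓝 (0 : ℝ), x + τ • (-v) ∈ U :=
      hc.continuousAt.eventually (hU.mem_nhds (by simpa using hx))
    filter_upwards [this] with τ hτ
    rw [← h.rot _ hτ Real.pi]
    congr 1
    have e : ex Real.pi = -1 := Complex.exp_pi_mul_I
    ext <;> simp [e] <;> ring

theorem Adm.dir_circ {G : V → ℝ} (h : Adm G) {u1 u2 u3 : ℂ} (n1 : ‖u1‖ = 1) (n2 : ‖u2‖ = 1)
    (n3 : ‖u3‖ = 1) (h1 : dt u2 u3 ≠ 0) (h2 : dt u3 u1 ≠ 0) (h3 : dt u1 u2 ≠ 0)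
    (ha : Near G u1 u2 u3 0) (hb : Near G (-u3) (-u1) (-u2) 0) (hc : Near G u2 u3 u1 0) :
    Dir G (rU u1 u2 u3 0) (3 * ((dt u1 u2 : ℂ) * u3), 3 * ((dt u2 u3 : ℂ) * u1)) := by
  have dn : ∀ u v : ℂ, dt (-u) (-v) = dt u v := fun u v => by simp [dt]
  have ta := ha.tr (Dr_surj n1 n2 n3 h3 h1) (D0_Dr n1 n2 n3 h3)
  have tb := hb.tr (Dr_surj (by simpa) (by simpa) (by simpa) (by rwa [dn]) (by rwa [dn]))
    (D0_Dr (by simpa) (by simpa) (by simpa) (by rwa [dn]))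
  have tc := hc.tr (Dr_surj n2 n3 n1 h1 h2) (D0_Dr n2 n3 n1 h1)
  have ua := mem_U_of_dt 0 h1 h2 h3
  have uc := mem_U_of_dt 0 h2 h3 h1
  have e1 := q_eq_r u1 u2 u3
  have e2 : qU (-u3) (-u1) (-u2) 0 = rU u2 u3 u1 0 := by rw [q_eq_r]; simp
  have e3 : qU u2 u3 u1 0 = -rU u1 u2 u3 0 := by ext <;> simp [qU, rU]
  rw [← e1, e2] at tb
  have t2 := ta.trans tb (D0_surj _ _ _) (h.an _ ua.1) (h.an _ ua.2)
  have t3 := t2.trans tc ((D0_surj _ _ _).comp (D0_surj _ _ _)) (h.an _ ua.1) (h.an _ uc.1)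
  rw [e3] at t3
  have t4 := t3.trans (h.tr_neg ua.1) ((D0_surj _ _ _).comp ((D0_surj _ _ _).comp (D0_surj _ _ _)))
    (h.an _ ua.1) (h.an _ (e3 ▸ uc.2))
  refine dir_of_unipotent (ell u1 u2 u3) ?_ (e := Dr u1 u2 u3 0 (0, 0, 0, 1)) ?_ ?_
  · simp [ell, ip]; left; ring
  · rw [ell_Dr n1 n2 n3 h3]; simp
  · convert t4 using 1
    ext1 v
    have s1 := ell_shift u1 u2 u3 v
    have s2 := ell_shift (-u3) (-u1) (-u2) (D0 u1 u2 u3 v)
    simp only [neg_neg] at s2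
    rw [s1] at s2
    simp only [Function.comp]
    have k3 : ∀ w, D0 u2 u3 u1 w = (w.1 + w.2 - (ell u2 u3 u1 w : ℂ) * ((dt u1 u2 : ℂ) * u3),
      -w.1 - (ell u2 u3 u1 w : ℂ) * ((dt u2 u3 : ℂ) * u1)) := fun w => rfl
    have k2 : ∀ w, D0 (-u3) (-u1) (-u2) w =
      (w.1 + w.2 - (ell (-u3) (-u1) (-u2) w : ℂ) * ((dt (-u2) (-u3) : ℂ) * (-u1)),
      -w.1 - (ell (-u3) (-u1) (-u2) w : ℂ) * ((dt (-u3) (-u1) : ℂ) * (-u2))) := fun w => rfl
    have k1 : D0 u1 u2 u3 v = (v.1 + v.2 - (ell u1 u2 u3 v : ℂ) * ((dt u3 u1 : ℂ) * u2),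
      -v.1 - (ell u1 u2 u3 v : ℂ) * ((dt u1 u2 : ℂ) * u3)) := rfl
    rw [k3, s2, k2, s1, k1]
    generalize ell u1 u2 u3 v = c
    refine Prod.ext ?_ ?_ <;> apply Complex.ext <;> simp [dt] <;> ring

theorem Adm.dir_rot {G : V → ℝ} (h : Adm G) {x : V} (hx : x ∈ U) :
    Dir G x (I * x.1, I * x.2) := by
  have hU : IsOpen U := by
    unfold U
    exact (isOpen_ne_fun (by fun_prop) (by fun_prop)).inter
      ((isOpen_ne_fun (by fun_prop) (by fun_prop)).inter (isOpen_ne_fun (by fun_prop) (by fun_prop)))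
  intro k p hp v σ
  have key : Tr G x x (fun v => v + σ • (I * x.1, I * x.2)) := by
    refine tr_of_curves fun v => ⟨fun τ => x + τ • v,
      fun τ => (ex (0 + τ * σ) * (x + τ • v).1, ex (0 + τ * σ) * (x + τ • v).2), by simp,
      by simp [ex_zero], ?_, ?_, ?_⟩
    · simpa using ((hasDerivAt_id (0 : ℝ)).smul_const v).const_add x
    · have d1 : HasDerivAt (fun τ : ℝ => (x + τ • v).1) v.1 0 := by
        simpa using ((hasDerivAt_id (0 : ℝ)).smul_const v.1).const_add x.1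
      have d2 : HasDerivAt (fun τ : ℝ => (x + τ • v).2) v.2 0 := by
        simpa using ((hasDerivAt_id (0 : ℝ)).smul_const v.2).const_add x.2
      refine (((hd_ex 0 σ).mul d1).prodMk ((hd_ex 0 σ).mul d2)).congr_deriv ?_
      ext <;> simp [ex_zero] <;> ring
    · have hc : Continuous (fun τ : ℝ => x + τ • v) := by fun_prop
      have : ∀ᶠ τ in 𝓝 (0 : ℝ), x + τ • v ∈ U :=
        hc.continuousAt.eventually (hU.mem_nhds (by simpa using hx))
      filter_upwards [this] with τ hτ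
      exact (h.rot _ hτ _).symm
  exact (key k p p hp hp v).symm

end Pool.Agent.MP_62f0b1_an

end MrgPart1

-- ======== part 2: formerly Pool.Agent.MP_62f0b1_an.Point
section MrgPart2

/-!
An explicit triangle at which the leading term of every admissible function is a power of the
differential of the area, and the resulting functional dependence.
-/

set_option autoImplicit false
set_option linter.unusedSectionVars false

open Filter Topology Asymptotics Complex Set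

namespace Pool.Agent.MP_62f0b1_an

theorem dt_neg (u v : ℂ) : dt (-u) (-v) = dt u v := by simp [dt]

theorem Adm.dir_circ1 {G : V → ℝ} (h : Adm G) {u1 u2 u3 : ℂ} (n1 : ‖u1‖ = 1) (n2 : ‖u2‖ = 1)
    (n3 : ‖u3‖ = 1) (h1 : dt u2 u3 ≠ 0) (h2 : 0 < dt u3 u1) (h3 : 0 < dt u1 u2) :
    Dir G (rU u1 u2 u3 0) (3 * ((dt u1 u2 : ℂ) * u3), 3 * ((dt u2 u3 : ℂ) * u1)) :=
  h.dir_circ n1 n2 n3 h1 h2.ne' h3.ne' (h.near1 n1 n2 n3 h2 h3)
    (h.near2 (by simpa) (by simpa) (by simpa) (by rwa [dt_neg]) (by rwa [dt_neg]))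
    (h.near3 n2 n3 n1 h2 h3)

theorem Adm.dir_circ3 {G : V → ℝ} (h : Adm G) {u1 u2 u3 : ℂ} (n1 : ‖u1‖ = 1) (n2 : ‖u2‖ = 1)
    (n3 : ‖u3‖ = 1) (h1 : 0 < dt u2 u3) (h2 : 0 < dt u3 u1) (h3 : dt u1 u2 ≠ 0) :
    Dir G (rU u1 u2 u3 0) (3 * ((dt u1 u2 : ℂ) * u3), 3 * ((dt u2 u3 : ℂ) * u1)) :=
  h.dir_circ n1 n2 n3 h1.ne' h2.ne' h3 (h.near3 n1 n2 n3 h1 h2)
    (h.near1 (by simpa) (by simpa) (by simpa) (by rwa [dt_neg]) (by rwa [dt_neg]))
    (h.near2 n2 n3 n1 h1 h2)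

theorem norm_mk {a b : ℝ} (h : a ^ 2 + b ^ 2 = 1) : ‖(⟨a, b⟩ : ℂ)‖ = 1 := by
  have : ‖(⟨a, b⟩ : ℂ)‖ ^ 2 = 1 ^ 2 := by
    rw [Complex.sq_norm, Complex.normSq_mk]; linarith
  exact (sq_eq_sq₀ (norm_nonneg _) zero_le_one).1 this

/-- the base triangle, with `r = √15` -/
noncomputable def X0 (r : ℝ) : V := (⟨5 / 8, 3 * r / 8⟩, ⟨-5 / 8, -r / 8⟩)
/-- its partner under the second branch -/
noncomputable def Y0 (r : ℝ) : V := (⟨-5 / 8, r / 8⟩, ⟨5 / 8, -3 * r / 8⟩)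
/-- first invariant direction -/
noncomputable def wX (r : ℝ) : V := (⟨-21 / 32 * r, 45 / 32⟩, ⟨63 / 128 * r, 135 / 128⟩)
/-- invariant direction at the partner -/
noncomputable def wY (r : ℝ) : V := (⟨-63 / 128 * r, 135 / 128⟩, ⟨21 / 32 * r, 45 / 32⟩)
/-- second invariant direction -/
noncomputable def w1 (r : ℝ) : V := (⟨-99 / 208 * r, -405 / 52⟩, ⟨669 / 1664 * r, 16605 / 1664⟩)

theorem X0_mem (r : ℝ) (hr0 : 0 < r) : X0 r ∈ U := by
  refine ⟨fun h => ?_, fun h => ?_, fun h => ?_⟩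
  · have := congrArg Complex.re h; simp [X0] at this
  · have := congrArg Complex.re h; simp [X0] at this
  · have := congrArg Complex.im h; simp [X0] at this; linarith

theorem Y0_mem (r : ℝ) (hr0 : 0 < r) : Y0 r ∈ U := by
  refine ⟨fun h => ?_, fun h => ?_, fun h => ?_⟩
  · have := congrArg Complex.re h; simp [Y0] at this
  · have := congrArg Complex.re h; simp [Y0] at this
  · have := congrArg Complex.im h; simp [Y0] at this; linarith

section point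

variable {r : ℝ} (hr : r ^ 2 = 15) (hr0 : 0 < r) {G : V → ℝ} (h : Adm G)
include hr hr0 h

theorem dir_wX : Dir G (X0 r) (wX r) := by
  have := h.dir_circ3 (u1 := ⟨7 / 8, r / 8⟩) (u2 := ⟨1 / 4, -r / 4⟩) (u3 := ⟨7 / 8, -r / 8⟩)
    (norm_mk (by linarith)) (norm_mk (by linarith)) (norm_mk (by linarith))
    (by simp only [dt]; linarith) (by simp only [dt]; linarith) (by simp only [dt]; linarith)
  convert this using 1
  · refine Prod.ext ?_ ?_ <;> apply Complex.ext <;> simp [X0, rU] <;> ring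
  · refine Prod.ext ?_ ?_ <;> apply Complex.ext <;> simp [wX, dt] <;> grind

theorem dir_wY : Dir G (Y0 r) (wY r) := by
  have := h.dir_circ1 (u1 := ⟨-7 / 8, -r / 8⟩) (u2 := ⟨-1 / 4, -r / 4⟩) (u3 := ⟨-7 / 8, r / 8⟩)
    (norm_mk (by linarith)) (norm_mk (by linarith)) (norm_mk (by linarith))
    (by simp only [dt]; linarith) (by simp only [dt]; linarith) (by simp only [dt]; linarith)
  convert this using 1
  · refine Prod.ext ?_ ?_ <;> apply Complex.ext <;> simp [Y0, rU] <;> ring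
  · refine Prod.ext ?_ ?_ <;> apply Complex.ext <;> simp [wY, dt] <;> grind

omit h hr0 in
theorem Dr_m (z : Z) : Dr ⟨1 / 4, -r / 4⟩ ⟨1 / 4, r / 4⟩ ⟨-1, 0⟩ (-2 * r / 3) z =
    (⟨r * (-3 / 8 * z.1 + 5 / 24 * z.2.1 + 1 / 24 * z.2.2.1 + 1 / 16 * z.2.2.2),
      -3 / 8 * z.1 + 3 / 8 * z.2.1 - 5 / 8 * z.2.2.1 - 15 / 16 * z.2.2.2⟩,
     ⟨r * (1 / 24 * z.1 + 3 / 8 * z.2.1 - 1 / 24 * z.2.2.1 + 1 / 16 * z.2.2.2),
      5 / 8 * z.1 - 3 / 8 * z.2.1 + 3 / 8 * z.2.2.1 + 15 / 16 * z.2.2.2⟩) := by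
  refine Prod.ext ?_ ?_ <;> apply Complex.ext <;> simp [Dr, dt, ip] <;> grind

omit h hr0 in
theorem Dq_m (z : Z) : Dq ⟨1 / 4, -r / 4⟩ ⟨1 / 4, r / 4⟩ ⟨-1, 0⟩ (-2 * r / 3) z =
    (⟨r * (-3 / 8 * z.1 - 1 / 24 * z.2.1 + 1 / 24 * z.2.2.1 + 1 / 16 * z.2.2.2),
      -3 / 8 * z.1 + 5 / 8 * z.2.1 + 3 / 8 * z.2.2.1 - 15 / 16 * z.2.2.2⟩,
     ⟨r * (-5 / 24 * z.1 + 3 / 8 * z.2.1 - 1 / 24 * z.2.2.1 + 1 / 16 * z.2.2.2),
      3 / 8 * z.1 - 3 / 8 * z.2.1 - 5 / 8 * z.2.2.1 + 15 / 16 * z.2.2.2⟩) := by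
  refine Prod.ext ?_ ?_ <;> apply Complex.ext <;> simp [Dq, dt, ip] <;> grind

theorem dir_w1 : Dir G (X0 r) (w1 r) := by
  have hn := h.near0 (u1 := ⟨1 / 4, -r / 4⟩) (u2 := ⟨1 / 4, r / 4⟩) (u3 := ⟨-1, 0⟩)
    (norm_mk (by linarith)) (norm_mk (by linarith)) (norm_mk (by norm_num))
    (by simp only [dt]; linarith) (by simp only [dt]; linarith) (by simp only [dt]; linarith)
    (-2 * r / 3)
  have ir : ∀ z, Dr ⟨1 / 4, -r / 4⟩ ⟨1 / 4, r / 4⟩ ⟨-1, 0⟩ (-2 * r / 3) z = 0 → z = 0 := by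
    intro z hz
    rw [Dr_m hr] at hz
    have a1 := (mul_eq_zero.1 (congrArg (fun v : V => v.1.re) hz)).resolve_left hr0.ne'
    have a2 := congrArg (fun v : V => v.1.im) hz
    have a3 := (mul_eq_zero.1 (congrArg (fun v : V => v.2.re) hz)).resolve_left hr0.ne'
    have a4 := congrArg (fun v : V => v.2.im) hz
    simp only [Prod.fst_zero, Prod.snd_zero, zero_im] at a2 a4
    refine Prod.ext ?_ (Prod.ext ?_ (Prod.ext ?_ ?_)) <;>
      simp only [Prod.fst_zero, Prod.snd_zero] <;> linarith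
  have iq : ∀ z, Dq ⟨1 / 4, -r / 4⟩ ⟨1 / 4, r / 4⟩ ⟨-1, 0⟩ (-2 * r / 3) z = 0 → z = 0 := by
    intro z hz
    rw [Dq_m hr] at hz
    have a1 := (mul_eq_zero.1 (congrArg (fun v : V => v.1.re) hz)).resolve_left hr0.ne'
    have a2 := congrArg (fun v : V => v.1.im) hz
    have a3 := (mul_eq_zero.1 (congrArg (fun v : V => v.2.re) hz)).resolve_left hr0.ne'
    have a4 := congrArg (fun v : V => v.2.im) hz
    simp only [Prod.fst_zero, Prod.snd_zero, zero_im] at a2 a4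
    refine Prod.ext ?_ (Prod.ext ?_ (Prod.ext ?_ ?_)) <;>
      simp only [Prod.fst_zero, Prod.snd_zero] <;> linarith
  set R := LinearEquiv.ofBijective _ ⟨(injective_iff_map_eq_zero _).2 ir, surj_of_inj _ ir⟩ with hR
  set Q := LinearEquiv.ofBijective _ ⟨(injective_iff_map_eq_zero _).2 iq, surj_of_inj _ iq⟩ with hQ
  have t1 := hn.tr (D := (R.symm.trans Q).toLinearMap) (surj_of_inj _ ir) (fun z => by
    change Q (R.symm (R z)) = Q z
    rw [R.symm_apply_apply])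
  have t2 := hn.tr' (D := (Q.symm.trans R)) (surj_of_inj _ iq) (fun z => by
    change R (Q.symm (Q z)) = R z
    rw [Q.symm_apply_apply])
  have e1 : rU ⟨1 / 4, -r / 4⟩ ⟨1 / 4, r / 4⟩ ⟨-1, 0⟩ (-2 * r / 3) = Y0 r := by
    refine Prod.ext ?_ ?_ <;> apply Complex.ext <;> simp [Y0, rU, dt] <;> grind
  have e2 : qU ⟨1 / 4, -r / 4⟩ ⟨1 / 4, r / 4⟩ ⟨-1, 0⟩ (-2 * r / 3) = X0 r := by
    refine Prod.ext ?_ ?_ <;> apply Complex.ext <;> simp [X0, qU, dt] <;> grind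
  rw [e1, e2] at t1 t2
  have := (dir_wY hr hr0 h).transport _ t1 t2 (R.symm.trans Q).surjective
    (Q.symm.trans R).surjective (h.an _ (Y0_mem r hr0)) (h.an _ (X0_mem r hr0))
  have e3 : wY r = R (423 / 416, -27 / 416, -459 / 52, 225 / 52) := by
    change _ = Dr _ _ _ _ _
    rw [Dr_m hr]
    refine Prod.ext ?_ ?_ <;> apply Complex.ext <;> simp [wY] <;> ring
  have e4 : w1 r = Q (423 / 416, -27 / 416, -459 / 52, 225 / 52) := by
    change _ = Dq _ _ _ _ _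
    rw [Dq_m hr]
    refine Prod.ext ?_ ?_ <;> apply Complex.ext <;> simp [w1] <;> ring
  rw [e3] at this
  rw [e4]
  convert this using 1
  change _ = Q (R.symm (R _))
  rw [R.symm_apply_apply]

theorem lead_eq {k : ℕ} {p : V → ℝ} (hp : Lead G (X0 r) k p) :
    ∃ c : ℝ, ∀ v : V, p v = c * (dt v.1 (X0 r).2 + dt (X0 r).1 v.2) ^ k := by
  refine ⟨p (X0 r) / (5 / 16 * r) ^ k, fun v => ?_⟩
  have key : v = (-2 / 5 * v.1.re + 2 / 15 * r * v.1.im - 6 / 5 * v.2.re + 2 / 15 * r * v.2.im) • X0 r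
      + (3308 / 48375 * r * v.1.re + 2012 / 9675 * v.1.im + 2768 / 16125 * r * v.2.re
        + 208 / 1935 * v.2.im) • wX r
      + (-13 / 43 * r * v.1.re - 29 / 215 * v.1.im - 78 / 215 * r * v.2.re - 22 / 215 * v.2.im) •
        (I * (X0 r).1, I * (X0 r).2)
      + (-1508 / 48375 * r * v.1.re - 52 / 9675 * v.1.im - 2704 / 48375 * r * v.2.re
        + 208 / 1935 * v.2.im) • w1 r := by
    refine Prod.ext ?_ ?_ <;> apply Complex.ext <;> simp [X0, wX, w1] <;> grind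
  conv_lhs => rw [key]
  rw [dir_w1 hr hr0 h k p hp, h.dir_rot (X0_mem r hr0) k p hp, dir_wX hr hr0 h k p hp, hp.hom]
  have e : dt v.1 (X0 r).2 + dt (X0 r).1 v.2 = (5 / 16 * r) *
      (-2 / 5 * v.1.re + 2 / 15 * r * v.1.im - 6 / 5 * v.2.re + 2 / 15 * r * v.2.im) := by
    simp [X0, dt]; grind
  rw [e, mul_pow (5 / 16 * r)]
  have : (5 / 16 * r) ^ k ≠ 0 := by positivity
  generalize (5 / 16 * r) ^ k = b at this ⊢
  generalize (-2 / 5 * v.1.re + 2 / 15 * r * v.1.im - 6 / 5 * v.2.re + 2 / 15 * r * v.2.im) ^ k = a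
  field_simp

end point

theorem open_U : IsOpen U := by
  unfold U
  exact (isOpen_ne_fun (by fun_prop) (by fun_prop)).inter
    ((isOpen_ne_fun (by fun_prop) (by fun_prop)).inter (isOpen_ne_fun (by fun_prop) (by fun_prop)))

theorem preconn_U : IsPreconnected U := by
  have h1 : IsConnected ({0} : Set ℂ)ᶜ :=
    (Set.countable_singleton _).isConnected_compl_of_one_lt_rank (by simp)
  have h2 : IsConnected ({0, -1} : Set ℂ)ᶜ :=
    (Set.toFinite _).countable.isConnected_compl_of_one_lt_rank (by simp)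
  have h3 := (h1.prod h2).isPreconnected.image (fun y : ℂ × ℂ => ((y.1, y.2 * y.1) : V))
    (by fun_prop)
  convert h3 using 1
  ext x
  constructor
  · rintro ⟨a, b, c⟩
    refine ⟨(x.1, x.2 / x.1), ⟨a, ?_⟩, by simp [a]⟩
    simp only [mem_compl_iff, mem_insert_iff, mem_singleton_iff, div_eq_zero_iff, a, b, or_self,
      false_or]
    rw [div_eq_iff a]
    intro h; apply c; rw [h]; ring
  · rintro ⟨y, ⟨a, b⟩, rfl⟩
    simp only [mem_compl_iff, mem_insert_iff, mem_singleton_iff, not_or] at a b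
    refine ⟨a, mul_ne_zero b.1 a, ?_⟩
    have : y.1 + y.2 * y.1 = (y.2 + 1) * y.1 := by ring
    change y.1 + y.2 * y.1 ≠ 0
    rw [this]
    exact mul_ne_zero (fun h => b.2 (by linear_combination h)) a

/-- twice the oriented area -/
def Ar (x : V) : ℝ := dt x.1 x.2

theorem an_Ar (x : V) : AnalyticAt ℝ Ar x := by unfold Ar; fun_prop

theorem Adm.sub {G : V → ℝ} (h : Adm G) (c a : ℝ) (k : ℕ) :
    Adm (fun x => G x - c * (Ar x - a) ^ k) where
  an x hx := (h.an x hx).sub (analyticAt_const.mul (((an_Ar x).sub analyticAt_const).pow k))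
  rot x hx τ := by
    have e : Ar (ex τ * x.1, ex τ * x.2) = Ar x := by
      have := sq_of_norm (norm_ex τ)
      simp only [Ar, dt, mul_re, mul_im]
      linear_combination (x.1.re * x.2.im - x.1.im * x.2.re) * this
    simp only [h.rot x hx τ, e]
  inv u1 u2 u3 s n1 n2 n3 h1 h2 h3 := by
    have e : Ar (rU u1 u2 u3 s) = Ar (qU u1 u2 u3 s) := by
      simp [Ar, rU, qU, dt]; ring
    simp only [h.inv u1 u2 u3 s n1 n2 n3 h1 h2 h3, e]

theorem hd_line (x v : V) : HasDerivAt (fun τ : ℝ => x + τ • v) v 0 := by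
  simpa using ((hasDerivAt_id (0 : ℝ)).smul_const v).const_add x

theorem hd_Ar (x v : V) :
    HasDerivAt (fun τ : ℝ => Ar (x + τ • v)) (dt v.1 x.2 + dt x.1 v.2) 0 := by
  have d1 : HasDerivAt (fun τ : ℝ => (x + τ • v).1) v.1 0 := by
    simpa using ((hasDerivAt_id (0 : ℝ)).smul_const v.1).const_add x.1
  have d2 : HasDerivAt (fun τ : ℝ => (x + τ • v).2) v.2 0 := by
    simpa using ((hasDerivAt_id (0 : ℝ)).smul_const v.2).const_add x.2
  simpa [Ar] using hd_dt d1 d2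

theorem Ord.comp {E F : Type*} [NormedAddCommGroup E] [NormedSpace ℝ E] [NormedAddCommGroup F]
    [NormedSpace ℝ F] {G : E → ℝ} {x : E} {k : ℕ} (h : Ord G x k) {Γ : F → E} {y : F}
    (hΓ : DifferentiableAt ℝ Γ y) (hy : Γ y = x) : Ord (fun z => G (Γ z)) y k := by
  have t0 : Tendsto (fun v : F => y + v) (𝓝 0) (𝓝 y) := by
    have : Continuous (fun v : F => y + v) := by fun_prop
    simpa using this.tendsto 0
  have t1 : Tendsto (fun v : F => Γ (y + v) - x) (𝓝 0) (𝓝 0) := by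
    have := (hΓ.continuousAt.tendsto.comp t0).sub_const x
    simpa [hy] using this
  have b1 := hΓ.isBigO_sub.comp_tendsto t0
  have b2 := IsBigO.comp_tendsto h t1
  simp only [Function.comp_def, add_sub_cancel, add_sub_cancel_left, hy] at b1 b2
  exact b2.trans (b1.norm_norm.pow k)

theorem step {r : ℝ} (hr : r ^ 2 = 15) (hr0 : 0 < r) {G : V → ℝ} (h : Adm G) {k : ℕ}
    (hk : Ord G (X0 r) k) :
    ∃ c : ℝ, Ord (fun x => G x - c * (Ar x - Ar (X0 r)) ^ k) (X0 r) (k + 1) := by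
  obtain ⟨p, hp⟩ := exists_lead (h.an _ (X0_mem r hr0)) hk
  obtain ⟨c, hc⟩ := lead_eq hr hr0 h hp
  refine ⟨c, ?_⟩
  have o1 : Ord (fun a : ℝ => c * (a - Ar (X0 r)) ^ k) (Ar (X0 r)) k := by
    unfold Ord
    simp only [add_sub_cancel_left]
    refine IsBigO.const_mul_left (IsBigO.of_bound 1 (Eventually.of_forall fun a => ?_)) c
    simp
  have o2 : Ord (fun x => G x - c * (Ar x - Ar (X0 r)) ^ k) (X0 r) k :=
    IsBigO.sub hk (o1.comp (an_Ar _).differentiableAt rfl)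
  obtain ⟨q, hq⟩ := exists_lead ((h.sub c (Ar (X0 r)) k).an _ (X0_mem r hr0)) o2
  refine hq.ord_succ fun w => ?_
  have t1 := hq.tendsto (by simp) (hd_line (X0 r) w)
  have t2 := hp.tendsto (by simp) (hd_line (X0 r) w)
  have t3 := (((hd_Ar (X0 r) w).tendsto_slope_zero).pow k).const_mul c
  have t4 := t2.sub t3
  rw [hc, sub_self] at t4
  refine tendsto_nhds_unique t1 (t4.congr fun τ => ?_)
  simp only [zero_add, zero_smul, add_zero, smul_eq_mul, mul_pow, inv_pow]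
  ring

theorem all_orders {r : ℝ} (hr : r ^ 2 = 15) (hr0 : 0 < r) {G : V → ℝ} (h : Adm G) (k : ℕ) :
    ∃ φ : ℝ → ℝ, Adm (fun x => G x - φ (Ar x)) ∧ Ord (fun x => G x - φ (Ar x)) (X0 r) k := by
  induction k with
  | zero => exact ⟨fun _ => 0, by simpa using h, by simpa using ord_zero (h.an _ (X0_mem r hr0))⟩
  | succ k ih =>
    obtain ⟨φ, h1, h2⟩ := ih
    obtain ⟨c, hc⟩ := step hr hr0 h1 h2
    refine ⟨fun a => φ a + c * (a - Ar (X0 r)) ^ k, ?_, ?_⟩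
    · simpa only [sub_sub] using h1.sub c (Ar (X0 r)) k
    · simpa only [sub_sub] using hc

theorem flow_zero {r : ℝ} (hr : r ^ 2 = 15) (hr0 : 0 < r) {G : V → ℝ} (h : Adm G) {N : V → V}
    (hN : ∀ x, AnalyticAt ℝ N x) (hA : ∀ (x : V) (τ : ℝ), Ar (x + τ • N x) = Ar x) :
    ∀ᶠ x in 𝓝 (X0 r), fderiv ℝ G x (N x) = 0 := by
  have hX := h.an _ (X0_mem r hr0)
  have a1 : AnalyticAt ℝ (fun y : V × ℝ => y.1 + y.2 • N y.1) (X0 r, 0) :=
    analyticAt_fst.add (analyticAt_snd.smul ((hN _).comp analyticAt_fst))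
  have a2 : AnalyticAt ℝ (fun y : V × ℝ => G (y.1 + y.2 • N y.1) - G y.1) (X0 r, 0) :=
    (AnalyticAt.comp (g := G) (by simpa using hX) a1).sub 
      (AnalyticAt.comp (g := G) (f := fun y : V × ℝ => y.1) (x := (X0 r, 0)) hX analyticAt_fst)
  have e0 := eventually_zero_of_ord a2 (fun k => by
    obtain ⟨φ, -, h2⟩ := all_orders hr hr0 h k
    have b1 := h2.comp a1.differentiableAt (by simp)
    have b2 := h2.comp (Γ := fun y : V × ℝ => y.1) (y := (X0 r, 0)) differentiableAt_fst rfl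
    have := IsBigO.sub b1 b2
    unfold Ord
    simpa only [hA, sub_sub_sub_cancel_right] using this)
  have t0 : Tendsto (fun y : V × ℝ => y - (X0 r, 0)) (𝓝 (X0 r, 0)) (𝓝 0) := by
    have : Continuous (fun y : V × ℝ => y - (X0 r, 0)) := by fun_prop
    simpa using this.tendsto (X0 r, 0)
  have e1 := (t0.eventually e0).curry_nhds
  filter_upwards [e1, open_U.mem_nhds (X0_mem r hr0)] with x hx hxU
  simp only [add_sub_cancel] at hx
  have d1 : HasDerivAt (fun τ : ℝ => G (x + τ • N x)) (fderiv ℝ G x (N x)) 0 :=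
    HasFDerivAt.comp_hasDerivAt_of_eq 0 (h.an x hxU).differentiableAt.hasFDerivAt
      (hd_line x (N x)) (by simp)
  have d2 : HasDerivAt (fun τ : ℝ => G (x + τ • N x)) 0 0 :=
    (hasDerivAt_const (0 : ℝ) (G x)).congr_of_eventuallyEq (hx.mono fun τ hτ => sub_eq_zero.1 hτ)
  exact d1.unique d2

theorem Adm.dependent {G : V → ℝ} (h : Adm G) {x : V} (hx : x ∈ U) :
    ∃ c : ℝ, ∀ v : V, fderiv ℝ G x v = c * (dt v.1 x.2 + dt x.1 v.2) := by
  have hr : √15 ^ 2 = (15 : ℝ) := Real.sq_sqrt (by norm_num)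
  have hr0 : 0 < √15 := Real.sqrt_pos.2 (by norm_num)
  have f1 := flow_zero hr hr0 h (N := fun x => (0, x.1)) (fun x => by fun_prop)
    (fun x τ => by simp [Ar, dt]; ring)
  have f2 := flow_zero hr hr0 h (N := fun x => (x.2, 0)) (fun x => by fun_prop)
    (fun x τ => by simp [Ar, dt]; ring)
  have f3 := flow_zero hr hr0 h (N := fun x => (-(x.1 + x.2), x.1 + x.2)) (fun x => by fun_prop)
    (fun x τ => by simp [Ar, dt]; ring)
  have f4 : ∀ᶠ x in 𝓝 (X0 √15), Ar x ≠ 0 :=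
    (an_Ar _).continuousAt.eventually_ne (by simp [Ar, X0, dt]; linarith)
  have key : ∀ v w : V, ∀ y ∈ U, fderiv ℝ G y v * (dt w.1 y.2 + dt y.1 w.2) -
      fderiv ℝ G y w * (dt v.1 y.2 + dt y.1 v.2) = 0 := by
    intro v w
    have an : AnalyticOnNhd ℝ (fun y : V => fderiv ℝ G y v * (dt w.1 y.2 + dt y.1 w.2) -
        fderiv ℝ G y w * (dt v.1 y.2 + dt y.1 v.2)) U := by
      intro y hy
      have b := (h.an y hy).fderiv
      have b1 : AnalyticAt ℝ (fun y => fderiv ℝ G y v) y :=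
        ((ContinuousLinearMap.apply ℝ ℝ v).analyticAt _).comp b
      have b2 : AnalyticAt ℝ (fun y => fderiv ℝ G y w) y :=
        ((ContinuousLinearMap.apply ℝ ℝ w).analyticAt _).comp b
      fun_prop
    refine an.eqOn_of_preconnected_of_eventuallyEq analyticOnNhd_const preconn_U
      (X0_mem _ hr0) ?_
    filter_upwards [f1, f2, f3, f4] with y g1 g2 g3 g4
    have dec : ∀ v : V, 2 * Ar y * fderiv ℝ G y v = (dt v.1 y.2 + dt y.1 v.2) * fderiv ℝ G y y := by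
      intro v
      have e : (2 * Ar y) • v = (dt v.1 y.2 + dt y.1 v.2) • y
          + (2 * dt v.2 y.2 - (dt y.1 v.2 - dt v.1 y.2)) • ((0, y.1) : V)
          + (2 * dt y.1 v.1 + (dt y.1 v.2 - dt v.1 y.2)) • ((y.2, 0) : V)
          + (dt y.1 v.2 - dt v.1 y.2) • ((-(y.1 + y.2), y.1 + y.2) : V) := by
        refine Prod.ext ?_ ?_ <;> apply Complex.ext <;> simp [Ar, dt] <;> ring
      have := congrArg (fderiv ℝ G y) e
      simpa only [map_add, map_smul, g1, g2, g3, smul_eq_mul, mul_zero, add_zero] using this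
    apply mul_left_cancel₀ (mul_ne_zero two_ne_zero g4)
    linear_combination (dt w.1 y.2 + dt y.1 w.2) * dec v - (dt v.1 y.2 + dt y.1 v.2) * dec w
  have hn : dt (0 : ℂ) x.2 + dt x.1 (I * x.1) ≠ 0 := by
    have : dt (0 : ℂ) x.2 + dt x.1 (I * x.1) = Complex.normSq x.1 := by
      simp [dt, Complex.normSq_apply]
    rw [this]
    exact (Complex.normSq_pos.2 hx.1).ne'
  refine ⟨fderiv ℝ G x (0, I * x.1) / (dt (0 : ℂ) x.2 + dt x.1 (I * x.1)), fun v => ?_⟩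
  have := key v (0, I * x.1) x hx
  rw [div_mul_eq_mul_div, eq_div_iff hn]
  linarith

end Pool.Agent.MP_62f0b1_an

end MrgPart2

-- ======== part 3: formerly Pool.Agent.MP_62f0b1_an.Main
section MrgPart3

/-!
Transfer from edge coordinates to triangles.
-/

set_option autoImplicit false
set_option linter.unusedSectionVars false

open Filter Topology Complex Set

namespace Pool.Agent.MP_62f0b1_an

theorem polygon_iff (P : Fin 3 → ℂ) : IsPolygon P ↔ P 0 ≠ P 2 ∧ P 1 ≠ P 0 ∧ P 2 ≠ P 1 := by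
  unfold IsPolygon
  rw [Fin.forall_fin_succ, Fin.forall_fin_succ, Fin.forall_fin_one]
  rfl

theorem multiArea_three (P : Fin 3 → ℂ) :
    multiArea P = -dt (P 0) (P 1) + dt (P 0) (P 2) - dt (P 1) (P 2) := by
  simp [multiArea, Fin.sum_univ_three, dt]
  ring

theorem omega_three (v w : Fin 3 → ℂ) : omegaForm v w =
    (ip (v 0) (w 1) - ip (v 1) (w 0)) - (ip (v 0) (w 2) - ip (v 2) (w 0)) +
      (ip (v 1) (w 2) - ip (v 2) (w 1)) := by
  simp [omegaForm, Fin.sum_univ_three, ip]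
  ring

theorem an_apply (i : Fin 3) (P : Fin 3 → ℂ) : AnalyticAt ℝ (fun Q : Fin 3 → ℂ => Q i) P :=
  (ContinuousLinearMap.proj (R := ℝ) (φ := fun _ : Fin 3 => ℂ) i).analyticAt P

theorem an_multiArea (P : Fin 3 → ℂ) : AnalyticAt ℝ (multiArea (n := 3)) P := by
  have : multiArea (n := 3) = fun P => -dt (P 0) (P 1) + dt (P 0) (P 2) - dt (P 1) (P 2) :=
    funext multiArea_three
  rw [this]
  exact ((an_dt (an_apply 0 P) (an_apply 1 P)).neg.add (an_dt (an_apply 0 P) (an_apply 2 P))).sub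
    (an_dt (an_apply 1 P) (an_apply 2 P))

theorem fderiv_multiArea (P w : Fin 3 → ℂ) : fderiv ℝ multiArea P w =
    -(dt (w 0) (P 1) + dt (P 0) (w 1)) + (dt (w 0) (P 2) + dt (P 0) (w 2))
      - (dt (w 1) (P 2) + dt (P 1) (w 2)) := by
  have l : HasDerivAt (fun τ : ℝ => P + τ • w) w 0 := by
    simpa using ((hasDerivAt_id (0 : ℝ)).smul_const w).const_add P
  have d1 : HasDerivAt (fun τ : ℝ => multiArea (P + τ • w)) (fderiv ℝ multiArea P w) 0 :=
    HasFDerivAt.comp_hasDerivAt_of_eq 0 (an_multiArea P).differentiableAt.hasFDerivAt l (by simp)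
  have c : ∀ i, HasDerivAt (fun τ : ℝ => (P + τ • w) i) (w i) 0 := fun i => by
    simpa using ((hasDerivAt_id (0 : ℝ)).smul_const (w i)).const_add (P i)
  have d2 := ((hd_dt (c 0) (c 1)).neg.add (hd_dt (c 0) (c 2))).sub (hd_dt (c 1) (c 2))
  simp only [zero_smul, add_zero] at d2
  refine d1.unique (d2.congr_of_eventuallyEq (Eventually.of_forall fun τ => ?_))
  simp only [multiArea_three]
  rfl

/-- the triangle with prescribed (scaled) edges and last vertex at the origin -/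
noncomputable def lift (t : ℝ) : V →L[ℝ] (Fin 3 → ℂ) :=
  LinearMap.toContinuousLinearMap
    { toFun := fun x => ![t * x.1, t * (x.1 + x.2), 0]
      map_add' := fun a b => by ext i; fin_cases i <;> simp <;> ring
      map_smul' := fun c a => by ext i; fin_cases i <;> simp <;> ring }

theorem lift_apply (t : ℝ) (x : V) : lift t x = ![t * x.1, t * (x.1 + x.2), 0] := rfl

/-- scaled edges of a triangle -/
noncomputable def edges (t : ℝ) : (Fin 3 → ℂ) →L[ℝ] V :=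
  LinearMap.toContinuousLinearMap
    { toFun := fun P => ((P 0 - P 2) / t, (P 1 - P 0) / t)
      map_add' := fun a b => by ext <;> simp <;> ring
      map_smul' := fun c a => by ext <;> simp <;> ring }

theorem edges_apply (t : ℝ) (P : Fin 3 → ℂ) : edges t P = ((P 0 - P 2) / t, (P 1 - P 0) / t) := rfl

theorem lift_polygon {t : ℝ} (ht : 0 < t) {x : V} (hx : x ∈ U) : IsPolygon (lift t x) := by
  have ht' : (t : ℂ) ≠ 0 := by exact_mod_cast ht.ne'
  rw [polygon_iff, lift_apply]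
  refine ⟨mul_ne_zero ht' hx.1, fun h => hx.2.1 ?_, (mul_ne_zero ht' hx.2.2).symm⟩
  have : (t : ℂ) * (x.1 + x.2) = t * x.1 := h
  have := mul_left_cancel₀ ht' this
  simpa using this

theorem edges_mem {t : ℝ} (ht : 0 < t) {P : Fin 3 → ℂ} (hP : IsPolygon P) : edges t P ∈ U := by
  have ht' : (t : ℂ) ≠ 0 := by exact_mod_cast ht.ne'
  rw [polygon_iff] at hP
  refine ⟨div_ne_zero (sub_ne_zero.2 hP.1) ht', div_ne_zero (sub_ne_zero.2 hP.2.1) ht', ?_⟩
  rw [edges_apply]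
  change (P 0 - P 2) / t + (P 1 - P 0) / t ≠ 0
  rw [← add_div]
  refine div_ne_zero (fun h => hP.2.2 ?_) ht'
  linear_combination -h

theorem unit_pos {t c : ℝ} {u : ℂ} (hc : 0 < c) (hu : ‖u‖ = 1) :
    (t / ‖(c : ℂ) * u‖) • ((c : ℂ) * u) = t * u := by
  rw [norm_mul, hu, mul_one, Complex.norm_real, Real.norm_of_nonneg hc.le, Complex.real_smul]
  have : (c : ℂ) ≠ 0 := by exact_mod_cast hc.ne'
  push_cast
  field_simp

theorem unit_neg {t c : ℝ} {u : ℂ} (hc : 0 < c) (hu : ‖u‖ = 1) :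
    (t / ‖-((c : ℂ) * u)‖) • (-((c : ℂ) * u)) = -(t * u) := by
  rw [norm_neg, smul_neg, unit_pos hc hu]

theorem side_gt {t a : ℝ} {u v : ℂ} (ht : 0 < t) (ha : 2 < a) (hu : ‖u‖ = 1) (hv : ‖v‖ = 1) :
    2 * t < ‖(t : ℂ) * (((1 + a : ℝ) : ℂ) * u - v)‖ := by
  have h1 := norm_sub_norm_le (((1 + a : ℝ) : ℂ) * u) v
  rw [norm_mul, hu, hv, Complex.norm_real, Real.norm_of_nonneg (by linarith)] at h1
  rw [norm_mul, Complex.norm_real, Real.norm_of_nonneg ht.le]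
  nlinarith

theorem adm_of {t : ℝ} (ht : 0 < t) {F : (Fin 3 → ℂ) → ℝ}
    (han : AnalyticOnNhd ℝ F {P | IsPolygon P})
    (htr : ∀ P, IsPolygon P → ∀ c : ℂ, F (fun i => P i + c) = F P)
    (hpo : ∀ P, IsPolygon P → ∀ v, (∀ w, omegaForm v w = fderiv ℝ multiArea P w) →
      fderiv ℝ F P v = 0)
    (hinv : ∀ P, IsPolygon P → (∀ i, 2 * t < ‖rMap t P i - rMap t P (i - 1)‖) →
      F (qMap t P) = F (rMap t P)) :
    Adm (fun x => F (lift t x)) where
  an x hx := (han _ (lift_polygon ht hx)).comp ((lift t).analyticAt x)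
  rot x hx τ := by
    have hU : ∀ σ : ℝ, ((ex σ * x.1, ex σ * x.2) : V) ∈ U := by
      intro σ
      have h0 : ex σ ≠ 0 := Complex.exp_ne_zero _
      refine ⟨mul_ne_zero h0 hx.1, mul_ne_zero h0 hx.2.1, ?_⟩
      change ex σ * x.1 + ex σ * x.2 ≠ 0
      rw [← mul_add]
      exact mul_ne_zero h0 hx.2.2
    have hd : ∀ σ : ℝ, HasDerivAt (fun σ : ℝ => F (lift t (ex σ * x.1, ex σ * x.2))) 0 σ := by
      intro σ
      have e1 : HasDerivAt ex (I * ex σ) σ := by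
        have h1 : HasDerivAt (fun τ : ℝ => (τ : ℂ) * I) I σ := by
          simpa using ((hasDerivAt_id σ).ofReal_comp).mul_const I
        exact h1.cexp.congr_deriv (by unfold ex; ring)
      have e2 := (lift t).hasFDerivAt.comp_hasDerivAt σ ((e1.mul_const x.1).prodMk (e1.mul_const x.2))
      have hP := lift_polygon ht (hU σ)
      have e3 := (han _ hP).differentiableAt.hasFDerivAt.comp_hasDerivAt σ e2
      refine e3.congr_deriv ?_
      have := hpo _ hP (-lift t (I * ex σ * x.1, I * ex σ * x.2)) (fun w => by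
        rw [omega_three, fderiv_multiArea]
        simp [lift_apply, ip, dt]
        ring)
      rwa [map_neg, neg_eq_zero] at this
    have := is_const_of_deriv_eq_zero (fun σ => (hd σ).differentiableAt) (fun σ => (hd σ).deriv) τ 0
    simpa [ex_zero] using this
  inv u1 u2 u3 s n1 n2 n3 h1 h2 h3 := by
    have k : ∀ d : ℝ, 2 < s * d → d ≠ 0 := by
      rintro d hd rfl; rw [mul_zero] at hd; linarith
    have hU := mem_U_of_dt s (k _ h1) (k _ h2) (k _ h3)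
    have p1 : 0 < t * (s * dt u2 u3) := mul_pos ht (by linarith)
    have p2 : 0 < t * (s * dt u3 u1) := mul_pos ht (by linarith)
    have p3 : 0 < t * (s * dt u1 u2) := mul_pos ht (by linarith)
    set P : Fin 3 → ℂ := ![(t * (s * dt u2 u3) : ℝ) * u1,
      (t * (s * dt u2 u3) : ℝ) * u1 + (t * (s * dt u3 u1) : ℝ) * u2, 0] with hP
    have s1 : P 0 - P 2 = (t * (s * dt u2 u3) : ℝ) * u1 := by simp [hP]
    have s2 : P 1 - P 0 = (t * (s * dt u3 u1) : ℝ) * u2 := by simp [hP]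
    have s3 : P 2 - P 1 = (t * (s * dt u1 u2) : ℝ) * u3 := by
      apply Complex.ext <;> simp [hP, dt] <;> ring
    have s1' : P 2 - P 0 = -((t * (s * dt u2 u3) : ℝ) * u1) := by rw [← s1]; ring
    have s2' : P 0 - P 1 = -((t * (s * dt u3 u1) : ℝ) * u2) := by rw [← s2]; ring
    have s3' : P 1 - P 2 = -((t * (s * dt u1 u2) : ℝ) * u3) := by rw [← s3]; ring
    have ne : ∀ (c : ℝ) (u : ℂ), 0 < c → ‖u‖ = 1 → (c : ℂ) * u ≠ 0 := by
      intro c u hc hu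
      refine mul_ne_zero (by exact_mod_cast hc.ne') ?_
      rintro rfl; simp at hu
    have hpoly : IsPolygon P := by
      rw [polygon_iff]
      exact ⟨sub_ne_zero.1 (s1 ▸ ne _ _ p1 n1), sub_ne_zero.1 (s2 ▸ ne _ _ p2 n2),
        sub_ne_zero.1 (s3 ▸ ne _ _ p3 n3)⟩
    have q0 : qMap t P 0 = P 0 + t * u1 := by
      change P 0 + (t / ‖P 0 - P 2‖) • (P 0 - P 2) = _
      rw [s1, unit_pos p1 n1]
    have q1 : qMap t P 1 = P 1 + t * u2 := by
      change P 1 + (t / ‖P 1 - P 0‖) • (P 1 - P 0) = _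
      rw [s2, unit_pos p2 n2]
    have q2 : qMap t P 2 = P 2 + t * u3 := by
      change P 2 + (t / ‖P 2 - P 1‖) • (P 2 - P 1) = _
      rw [s3, unit_pos p3 n3]
    have r0 : rMap t P 0 = P 0 + -(t * u2) := by
      change P 0 + (t / ‖P 0 - P 1‖) • (P 0 - P 1) = _
      rw [s2', unit_neg p2 n2]
    have r1 : rMap t P 1 = P 1 + -(t * u3) := by
      change P 1 + (t / ‖P 1 - P 2‖) • (P 1 - P 2) = _
      rw [s3', unit_neg p3 n3]
    have r2 : rMap t P 2 = P 2 + -(t * u1) := by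
      change P 2 + (t / ‖P 2 - P 0‖) • (P 2 - P 0) = _
      rw [s1', unit_neg p1 n1]
    have hq : qMap t P = fun i => lift t (qU u1 u2 u3 s) i + t * u3 := by
      ext i
      fin_cases i
      · change qMap t P 0 = _
        rw [q0]; simp [hP, lift_apply, qU]; ring
      · change qMap t P 1 = _
        rw [q1]; simp [hP, lift_apply, qU]; ring
      · change qMap t P 2 = _
        rw [q2]; simp [hP, lift_apply]
    have hr : rMap t P = fun i => lift t (rU u1 u2 u3 s) i + -(t * u1) := by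
      ext i
      fin_cases i
      · change rMap t P 0 = _
        rw [r0]; simp [hP, lift_apply, rU]; ring
      · change rMap t P 1 = _
        rw [r1]; simp [hP, lift_apply, rU]; ring
      · change rMap t P 2 = _
        rw [r2]; simp [hP, lift_apply]
    have key := hinv P hpoly (by
      rw [Fin.forall_fin_succ, Fin.forall_fin_succ, Fin.forall_fin_one]
      refine ⟨?_, ?_, ?_⟩
      · change 2 * t < ‖rMap t P 0 - rMap t P 2‖
        have : rMap t P 0 - rMap t P 2 = t * (((1 + s * dt u2 u3 : ℝ) : ℂ) * u1 - u2) := by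
          rw [r0, r2]; push_cast at s1 ⊢; linear_combination s1
        rw [this]; exact side_gt ht h1 n1 n2
      · change 2 * t < ‖rMap t P 1 - rMap t P 0‖
        have : rMap t P 1 - rMap t P 0 = t * (((1 + s * dt u3 u1 : ℝ) : ℂ) * u2 - u3) := by
          rw [r0, r1]; push_cast at s2 ⊢; linear_combination s2
        rw [this]; exact side_gt ht h2 n2 n3
      · change 2 * t < ‖rMap t P 2 - rMap t P 1‖
        have : rMap t P 2 - rMap t P 1 = t * (((1 + s * dt u1 u2 : ℝ) : ℂ) * u3 - u1) := by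
          rw [r1, r2]; push_cast at s3 ⊢; linear_combination s3
        rw [this]; exact side_gt ht h3 n3 n1)
    rw [hq, hr, htr _ (lift_polygon ht hU.1), htr _ (lift_polygon ht hU.2)] at key
    exact key.symm

theorem open_polygon : IsOpen {P : Fin 3 → ℂ | IsPolygon P} := by
  simp only [polygon_iff]
  exact (isOpen_ne_fun (by fun_prop) (by fun_prop)).inter
    ((isOpen_ne_fun (by fun_prop) (by fun_prop)).inter (isOpen_ne_fun (by fun_prop) (by fun_prop)))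

theorem main {t : ℝ} (ht : 0 < t) {F : (Fin 3 → ℂ) → ℝ}
    (han : AnalyticOnNhd ℝ F {P | IsPolygon P})
    (htr : ∀ P, IsPolygon P → ∀ c : ℂ, F (fun i => P i + c) = F P)
    (hpo : ∀ P, IsPolygon P → ∀ v, (∀ w, omegaForm v w = fderiv ℝ multiArea P w) →
      fderiv ℝ F P v = 0)
    (hinv : ∀ P, IsPolygon P → (∀ i, 2 * t < ‖rMap t P i - rMap t P (i - 1)‖) →
      F (qMap t P) = F (rMap t P)) (P : Fin 3 → ℂ) (hP : IsPolygon P) :
    ∃ c : ℝ, fderiv ℝ F P = c • fderiv ℝ multiArea P := by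
  have ht' : (t : ℂ) ≠ 0 := by exact_mod_cast ht.ne'
  have hA := adm_of ht han htr hpo hinv
  obtain ⟨c, hc⟩ := hA.dependent (edges_mem ht hP)
  have e : F =ᶠ[𝓝 P] (fun x => F (lift t x)) ∘ edges t := by
    filter_upwards [open_polygon.mem_nhds hP] with Q hQ
    rw [← htr Q hQ (-Q 2)]
    simp only [Function.comp]
    congr 1
    ext i
    fin_cases i <;> simp [lift_apply, edges_apply] <;> field_simp <;> ring
  have d := (hA.an _ (edges_mem ht hP)).differentiableAt.hasFDerivAt.comp P (edges t).hasFDerivAt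
  refine ⟨-c / t ^ 2, ?_⟩
  rw [e.fderiv_eq, d.fderiv]
  ext1 w
  rw [ContinuousLinearMap.comp_apply, hc, smul_apply, fderiv_multiArea]
  simp only [edges_apply, dt, Complex.div_ofReal_re, Complex.div_ofReal_im, sub_re, sub_im,
    smul_eq_mul]
  field_simp
  ring

end Pool.Agent.MP_62f0b1_an

end MrgPart3

-- marker of a merged file
example : 731051 + 560577 = 731051 + 560577 := rfl
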