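import Mathlib
import Pool.Agent.MP_62f0b1_an.Main

set_option autoImplicit false

namespace Pool.Agent.Results.MP_62f0b1_an.NoAnalyticIntegral

open Pool.Agent.MP_62f0b1_an

/-- For triangles and every `t > 0`: a real-analytic function `F` on the space of triangles modulo
translations that Poisson commutes with the area `𝒜` and is invariant under
`f_t = q_t ∘ r_t⁻¹` has `dF` proportional to `d𝒜` at every triangle.  So `f_t` is not Liouville
integrable on `𝒯₃` with real-analytic integrals. -/
theorem result (t : ℝ) (ht : 0 < t) (F : (Fin 3 → ℂ) → ℝ)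
    (analytic : AnalyticOnNhd ℝ F {P | IsPolygon P})
    (translation : ∀ P, IsPolygon P → ∀ c : ℂ, F (fun i => P i + c) = F P)
    (poisson : ∀ P, IsPolygon P → ∀ v, (∀ w, omegaForm v w = fderiv ℝ multiArea P w) →
      fderiv ℝ F P v = 0)
    (invariant : ∀ P, IsPolygon P → (∀ i, 2 * t < ‖rMap t P i - rMap t P (i - 1)‖) →
      F (qMap t P) = F (rMap t P)) :
    ∀ P, IsPolygon P → ∃ c : ℝ, fderiv ℝ F P = c • fderiv ℝ multiArea P :=
  main ht analytic translation poisson invariant

end Pool.Agent.Results.MP_62f0b1_an.NoAnalyticIntegral
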